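import Pool.Agent.Lib.MP_153a79_co.MG.Defs

/-!
# Entries of the mutated matrix
-/

set_option autoImplicit false

namespace Pool.Agent.Lib.MP_153a79_co.MG

variable {n : ℕ} {B : Matrix (Fin n) (Fin n) ℤ}

theorem Skew.diag (h : Skew B) (i : Fin n) : B i i = 0 := by
  have := h i i
  omega

theorem mu_right (B : Matrix (Fin n) (Fin n) ℤ) (z x : Fin n) : mu B z x z = -B x z := by
  show (if x = z ∨ z = z then -B x z else _) = _
  rw [if_pos (Or.inr rfl)]

theorem mu_left (B : Matrix (Fin n) (Fin n) ℤ) (z x : Fin n) : mu B z z x = -B z x := by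
  show (if z = z ∨ x = z then -B z x else _) = _
  rw [if_pos (Or.inl rfl)]

theorem mu_of_ne (B : Matrix (Fin n) (Fin n) ℤ) {z x y : Fin n} (hx : x ≠ z) (hy : y ≠ z) :
    mu B z x y = B x y + max (B x z) 0 * max (B z y) 0 - max (-B x z) 0 * max (-B z y) 0 := by
  show (if x = z ∨ y = z then -B x y else _) = _
  rw [if_neg (by rintro (h | h); exacts [hx h, hy h])]

theorem mu_skew (h : Skew B) (z : Fin n) : Skew (mu B z) := by
  intro i j
  by_cases hi : i = z
  · rw [hi, mu_left, mu_right, h z j]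
    try ring
  by_cases hj : j = z
  · rw [hj, mu_left, mu_right, h i z]
    try ring
  rw [mu_of_ne B hi hj, mu_of_ne B hj hi, h i j, h z j, h i z]
  simp only [neg_neg]
  ring

/-- `z → x`, `z → y`. -/
theorem mu_out (h : Skew B) {z x y : Fin n} (hx : 0 < B x z) (hy : 0 < B y z) : mu B z x y = B x y := by
  have hxz : x ≠ z := by rintro rfl; rw [h.diag] at hx; omega
  have hyz : y ≠ z := by rintro rfl; rw [h.diag] at hy; omega
  rw [mu_of_ne B hxz hyz, h z y, max_eq_right (show -B y z ≤ 0 by omega),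
    max_eq_right (show -B x z ≤ 0 by omega)]
  ring

/-- `x → z`, `y → z`. -/
theorem mu_in (h : Skew B) {z x y : Fin n} (hx : 0 < B z x) (hy : 0 < B z y) : mu B z x y = B x y := by
  have hxz : x ≠ z := by rintro rfl; rw [h.diag] at hx; omega
  have hyz : y ≠ z := by rintro rfl; rw [h.diag] at hy; omega
  rw [mu_of_ne B hxz hyz, h x z, max_eq_right (show -B z x ≤ 0 by omega),
    max_eq_right (show -B z y ≤ 0 by omega)]
  ring

/-- `w → z → x`: the number of arrows `w → x` grows. -/
theorem mu_thru (h : Skew B) {z x w : Fin n} (hw : 0 < B z w) (hx : 0 < B x z) :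
    mu B z x w = B x w + B x z * B z w := by
  have hxz : x ≠ z := by rintro rfl; rw [h.diag] at hx; omega
  have hwz : w ≠ z := by rintro rfl; rw [h.diag] at hw; omega
  rw [mu_of_ne B hxz hwz, max_eq_left hx.le, max_eq_left hw.le, max_eq_right (show -B x z ≤ 0 by omega)]
  ring

/-- `w → z → x`: the number of arrows `x → w` decreases. -/
theorem mu_thru' (h : Skew B) {z x w : Fin n} (hw : 0 < B z w) (hx : 0 < B x z) :
    mu B z w x = B w x - B x z * B z w := by
  rw [mu_skew h z w x, mu_thru h hw hx, h w x]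
  ring

/-- In an abundant quiver every vertex `w ≠ z` is an out-neighbour or an in-neighbour of `z`. -/
theorem side (h : Skew B) (ha : Ab B) {z w : Fin n} (hw : w ≠ z) : 2 ≤ B w z ∨ 2 ≤ B z w := by
  have h1 := ha w z hw
  rw [h z w]
  rcases abs_cases (B w z) with h2 | h2 <;> omega

theorem two_le (ha : Ab B) (h : Skew B) {x y : Fin n} (hxy : 0 < B x y) : 2 ≤ B x y := by
  have hne : x ≠ y := by rintro rfl; rw [h.diag] at hxy; omega
  have h1 := ha x y hne
  rw [abs_of_pos hxy] at h1
  exact h1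

/-- The row of a vertex `x` which is not an in-neighbour of `z`. -/
theorem mu_row {z x w : Fin n} (hx : x ≠ z) (hw : w ≠ z) (h0 : 0 ≤ B x z) :
    mu B z x w = B x w + max (B z w) 0 * B x z := by
  rw [mu_of_ne B hx hw, max_eq_left h0, max_eq_right (show -B x z ≤ 0 by omega)]
  ring

/-- Two vertices which are not in-neighbours of `z`. -/
theorem mu_oo (h : Skew B) {z x w : Fin n} (hx : x ≠ z) (hw : w ≠ z) (h0 : 0 ≤ B x z) (h1 : 0 ≤ B w z) :
    mu B z x w = B x w := by
  rw [mu_row hx hw h0, h z w, max_eq_right (show -B w z ≤ 0 by omega)]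
  ring

theorem NoS.two (h : NoS B) {x y : Fin n} (hxy : 0 < B x y) : 2 ≤ B x y := by
  have h1 := h x y (by omega)
  rw [abs_of_pos hxy] at h1
  exact h1

theorem Ab.noS (h : Skew B) (ha : Ab B) : NoS B := by
  intro i j hij
  apply ha
  rintro rfl
  exact hij (h.diag i)

theorem Tri.cyc (h : Tri B) : Cyc B := by
  obtain ⟨i, j, k, h1, h2, h3⟩ := h
  refine ⟨{i, j, k}, ⟨i, by simp⟩, ?_⟩
  intro x hx
  rcases hx with rfl | rfl | rfl
  · exact ⟨j, by simp, h1⟩
  · exact ⟨k, by simp, h2⟩
  · exact ⟨i, by simp, h3⟩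

theorem mu_mu (B : Matrix (Fin n) (Fin n) ℤ) (z : Fin n) : mu (mu B z) z = B := by
  ext i j
  by_cases hi : i = z
  · rw [hi, mu_left, mu_left]
    ring
  by_cases hj : j = z
  · rw [hj, mu_right, mu_right]
    ring
  rw [mu_of_ne _ hi hj, mu_of_ne _ hi hj, mu_right, mu_left]
  simp only [neg_neg]
  ring

end Pool.Agent.Lib.MP_153a79_co.MG
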