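import Pool.Agent.Lib.MP_153a79_co.MG.A1

/-!
# The invariants are preserved by green mutations of quivers without simple arrows
-/

set_option autoImplicit false

namespace Pool.Agent.Lib.MP_153a79_co.MG

variable {n : ℕ} {B : Matrix (Fin n) (Fin n) ℤ} {C : Fin n → Fin n → ℤ} {S L : Fin n → Fin n → Prop}

theorem Inv.excl (hI : Inv B C S L) {y : Fin n} (h1 : Gr (C y)) (h2 : Rd (C y)) : False := by
  obtain ⟨i, hi⟩ := (hI.sgn y).2
  exact hi (le_antisymm (h2 i) (h1 i))

/-- `x` red, `y` green, `x → y`. -/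
theorem Inv.hh (h : Skew B) (hI : Inv B C S L) {x y : Fin n} (hx : Rd (C x)) (hy : Gr (C y)) (hxy : 0 < B y x)
    (i : Fin n) : 0 ≤ C x i + C y i := by
  by_cases hS : S x y
  · exact hI.i1g x y hx hS hy i
  · exact (hI.excl hy (hI.i2 x y hx hS (by rw [h x y]; omega)).1).elim

theorem nu_self (B : Matrix (Fin n) (Fin n) ℤ) (C : Fin n → Fin n → ℤ) (z i : Fin n) : nu B C z z i = -C z i := by
  show (if z = z then _ else _) = _
  rw [if_pos rfl]

/-- `x` is not an in-neighbour of `z`. -/
theorem nu_out (h : Skew B) (C : Fin n → Fin n → ℤ) {z x : Fin n} (hne : x ≠ z) (hx : 0 ≤ B x z) :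
    nu B C z x = C x := by
  funext i
  show (if x = z then _ else _) = _
  rw [if_neg hne, h z x, max_eq_right (show -B x z ≤ 0 by omega)]
  ring

/-- `w → z`. -/
theorem nu_in (h : Skew B) (C : Fin n → Fin n → ℤ) {z w : Fin n} (hw : 0 < B z w) (i : Fin n) :
    nu B C z w i = C w i + B z w * C z i := by
  have hne : w ≠ z := by rintro rfl; rw [h.diag] at hw; omega
  show (if w = z then _ else _) = _
  rw [if_neg hne, max_eq_left hw.le]

/-- The in-neighbours of `z` become green and large. -/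
theorem Inv.big (h : Skew B) (ha : NoS B) (hI : Inv B C S L) {z w : Fin n} (hz : Gr (C z)) (hw : 0 < B z w)
    (i : Fin n) : C z i ≤ nu B C z w i := by
  have h2 := ha.two hw
  rw [nu_in h C hw]
  have hzi := hz i
  rcases (hI.sgn w).1 with hg | hr
  · have := hg i
    nlinarith
  · have := hI.hh h hr hz hw i
    nlinarith

theorem Inv.bigGr (h : Skew B) (ha : NoS B) (hI : Inv B C S L) {z w : Fin n} (hz : Gr (C z)) (hw : 0 < B z w) :
    Gr (nu B C z w) := fun i => le_trans (hz i) (hI.big h ha hz hw i)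

theorem Inv.bigNe (h : Skew B) (ha : NoS B) (hI : Inv B C S L) {z w : Fin n} (hz : Gr (C z)) (hw : 0 < B z w) :
    ¬ Rd (nu B C z w) := by
  intro hr
  obtain ⟨i, hi⟩ := (hI.sgn z).2
  have h1 := hI.big h ha hz hw i
  have h2 := hr i
  have h3 := hz i
  exact hi (by omega)

/-- The red vertices after the mutation. -/
theorem Inv.red (h : Skew B) (ha : NoS B) (hI : Inv B C S L) {z x : Fin n} (hz : Gr (C z))
    (hx : Rd (nu B C z x)) (hne : x ≠ z) : 0 ≤ B x z ∧ Rd (C x) := by
  by_cases h1 : 0 ≤ B x z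
  · rw [nu_out h C hne h1] at hx
    exact ⟨h1, hx⟩
  · have h2 : 0 < B z x := by rw [h z x]; omega
    exact (hI.bigNe h ha hz h2 hx).elim

/-- `w → z`, `x` red and not an in-neighbour of `z`, `w`, `z` not marked. -/
theorem Inv.thr (h : Skew B) (ha : NoS B) (hI : Inv B C S L) {z x w : Fin n} (hz : Gr (C z)) (hx : Rd (C x))
    (hne : x ≠ z) (hxz : 0 ≤ B x z) (hw : 0 < B z w) (h1 : ¬ S x w) (h2 : ¬ S x z) :
    B x z ≤ mu B z x w ∧ B x w ≤ mu B z x w ∧ (B x w < 0 → 0 ≤ B x w + B x z) := by
  have h3 := ha.two hw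
  have hwz : w ≠ z := by rintro rfl; rw [h.diag] at hw; omega
  have h4 : 2 * B x z ≤ max (B z w) 0 * B x z := by
    rw [max_eq_left hw.le]
    nlinarith
  have h5 : B x w < 0 → 0 ≤ B x w + B x z := by
    intro h6
    obtain ⟨h7, h8⟩ := hI.i2 x w hx h1 h6
    exact hI.i3 x w z hx h1 h2 h7 h8 (fun h9 => hI.excl hz h9.1) (Ne.symm hne) hw
  rw [mu_row hne hwz hxz]
  refine ⟨?_, by linarith, h5⟩
  by_cases h6 : B x w < 0
  · have := h5 h6
    linarith
  · linarith

/-- The main step. -/
theorem inv_step (h : Skew B) (ha : NoS B) (hI : Inv B C S L) {z : Fin n} (hz : Gr (C z)) :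
    Inv (mu B z) (nu B C z) (Sn B S z) (Ln L z) := by
  have hzred : Rd (nu B C z z) := fun i => by
    rw [nu_self]
    have := hz i
    omega
  have hzgr : ¬ Gr (nu B C z z) := fun hg => by
    obtain ⟨i, hi⟩ := (hI.sgn z).2
    have h1 := hg i
    rw [nu_self] at h1
    have := hz i
    exact hi (by omega)
  have hns : ∀ x w, x ≠ z → ¬ Sn B S z x w → ¬ S x w ∧ (0 < B z w → ¬ S x z) := by
    intro x w hx hn
    constructor
    · intro hS
      exact hn (Or.inr ⟨hx, Or.inl hS⟩)
    · intro hw hS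
      exact hn (Or.inr ⟨hx, Or.inr ⟨hS, hw⟩⟩)
  have hJ : ∀ {x : Fin n}, ¬ 0 ≤ B x z → 0 < B z x := by
    intro x h1
    rw [h z x]
    omega
  have hIJ : ∀ {x : Fin n}, 0 ≤ B x z → ¬ 0 < B z x := by
    intro x h1 h2
    have := h x z
    omega
  have hne2 : ∀ {x : Fin n}, 0 < B z x → x ≠ z := by
    rintro x hx rfl
    rw [h.diag] at hx
    omega
  -- the status of the vertices which are not in-neighbours
  have hnuO : ∀ w, w ≠ z → 0 ≤ B w z → nu B C z w = C w := fun w h1 h2 => nu_out h C h1 h2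
  refine ⟨?_, ?_, ?_, ?_, ?_, ?_, ?_, ?_⟩
  · -- signs
    intro y
    by_cases hy : y = z
    · rw [hy]
      refine ⟨Or.inr hzred, ?_⟩
      obtain ⟨i, hi⟩ := (hI.sgn z).2
      exact ⟨i, by rw [nu_self]; omega⟩
    · by_cases h1 : 0 ≤ B y z
      · rw [nu_out h C hy h1]
        exact hI.sgn y
      · have h2 := hJ h1
        refine ⟨Or.inl (hI.bigGr h ha hz h2), ?_⟩
        obtain ⟨i, hi⟩ := (hI.sgn z).2
        refine ⟨i, ?_⟩
        have h3 := hI.big h ha hz h2 i
        have h4 := hz i
        omega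
  · -- irreflexive
    rintro x ⟨hx, hx' | hx'⟩
    · exact hx hx'
    · exact hI.irr x hx'
  · -- I1 green
    intro x w hx hS hw i
    by_cases hxz : x = z
    · subst hxz
      rcases hS with ⟨_, h1⟩ | ⟨h1, _⟩
      · have := hI.big h ha hz h1 i
        rw [nu_self]
        omega
      · exact (h1 rfl).elim
    · obtain ⟨hxI, hxr⟩ := hI.red h ha hz hx hxz
      rw [nu_out h C hxz hxI]
      have hS' : S x w ∨ (S x z ∧ 0 < B z w) := by
        rcases hS with ⟨h1, _⟩ | ⟨_, h1⟩
        · exact (hxz h1).elim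
        · exact h1
      by_cases hwz : w = z
      · subst hwz
        exact (hzgr hw).elim
      by_cases h1 : 0 ≤ B w z
      · rw [nu_out h C hwz h1] at hw ⊢
        rcases hS' with h2 | ⟨_, h2⟩
        · exact hI.i1g x w hxr h2 hw i
        · exact (hIJ h1 h2).elim
      · have hwJ := hJ h1
        have hbig := hI.big h ha hz hwJ i
        rcases hS' with h2 | ⟨h2, _⟩
        · rcases (hI.sgn w).1 with hg | hr
          · have h3 := hI.i1g x w hxr h2 hg i
            rw [nu_in h C hwJ]
            have h4 := hz i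
            nlinarith
          · have h3 := hI.i1r x w hxr h2 hr i
            have h4 := hI.hh h hr hz hwJ i
            omega
        · have h3 := hI.i1g x z hxr h2 hz i
          omega
  · -- I1 red
    intro x w hx hS hw i
    by_cases hxz : x = z
    · subst hxz
      rcases hS with ⟨_, h1⟩ | ⟨h1, _⟩
      · exact (hI.bigNe h ha hz h1 hw).elim
      · exact (h1 rfl).elim
    · obtain ⟨hxI, hxr⟩ := hI.red h ha hz hx hxz
      rw [nu_out h C hxz hxI]
      have hS' : S x w ∨ (S x z ∧ 0 < B z w) := by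
        rcases hS with ⟨h1, _⟩ | ⟨_, h1⟩
        · exact (hxz h1).elim
        · exact h1
      by_cases hwz : w = z
      · subst hwz
        have h2 : S x w := by
          rcases hS' with h2 | ⟨h2, _⟩ <;> exact h2
        have h3 := hI.i1g x w hxr h2 hz i
        rw [nu_self]
        omega
      · obtain ⟨hwI, hwr⟩ := hI.red h ha hz hw hwz
        rw [nu_out h C hwz hwI]
        rcases hS' with h2 | ⟨_, h2⟩
        · exact hI.i1r x w hxr h2 hwr i
        · exact (hIJ hwI h2).elim
  · -- I2
    intro x w hx hS hxw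
    by_cases hxz : x = z
    · subst hxz
      rw [mu_left] at hxw
      exact (hS (Or.inl ⟨rfl, by omega⟩)).elim
    · obtain ⟨hxI, hxr⟩ := hI.red h ha hz hx hxz
      obtain ⟨h1, h2⟩ := hns x w hxz hS
      by_cases hwz : w = z
      · subst hwz
        exact ⟨hzred, hxz, Or.inl rfl⟩
      by_cases h3 : 0 ≤ B w z
      · rw [mu_oo h hxz hwz hxI h3] at hxw
        obtain ⟨h4, h5⟩ := hI.i2 x w hxr h1 hxw
        rw [hnuO w hwz h3]
        exact ⟨h4, hxz, Or.inr h5⟩
      · have hwJ := hJ h3
        have h4 := (hI.thr h ha hz hxr hxz hxI hwJ h1 (h2 hwJ)).1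
        omega
  · -- I2'
    intro x w hx hS hw hL
    obtain ⟨hxz, hL'⟩ := hL
    obtain ⟨hxI, hxr⟩ := hI.red h ha hz hx hxz
    obtain ⟨h1, _⟩ := hns x w hxz hS
    by_cases hwz : w = z
    · subst hwz
      rw [mu_right]
      omega
    · obtain ⟨hwI, hwr⟩ := hI.red h ha hz hw hwz
      rw [mu_oo h hxz hwz hxI hwI]
      have hLxw : L x w := by
        rcases hL' with h5 | h5
        · exact (hwz h5).elim
        · exact h5
      exact hI.i2' x w hxr h1 hwr hLxw
  · -- I3
    intro x w w' hx hS hS' hw hL hnot hwx' hww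
    obtain ⟨hxz, hL'⟩ := hL
    obtain ⟨hxI, hxr⟩ := hI.red h ha hz hx hxz
    obtain ⟨h1, _⟩ := hns x w hxz hS
    obtain ⟨h1', h2'⟩ := hns x w' hxz hS'
    by_cases hwz' : w' = z
    · subst hwz'
      exact (hnot ⟨hzred, hxz, Or.inl rfl⟩).elim
    by_cases hwz : w = z
    · subst hwz
      rw [mu_right] at hww
      have hwJ' : 0 < B w w' := by rw [h w w']; omega
      have h3 := (hI.thr h ha hz hxr hxz hxI hwJ' h1' (h2' hwJ')).1
      rw [mu_right]
      omega
    obtain ⟨hwI, hwr⟩ := hI.red h ha hz hw hwz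
    have hLxw : L x w := by
      rcases hL' with h5 | h5
      · exact (hwz h5).elim
      · exact h5
    rw [mu_oo h hxz hwz hxI hwI]
    by_cases h4 : 0 ≤ B w' z
    · rw [mu_oo h hwz' hwz h4 hwI] at hww
      rw [mu_oo h hxz hwz' hxI h4]
      refine hI.i3 x w w' hxr h1 h1' hwr hLxw ?_ hwx' hww
      rintro ⟨g1, g2⟩
      apply hnot
      rw [hnuO w' hwz' h4]
      exact ⟨g1, hxz, Or.inr g2⟩
    · have hwJ' := hJ h4
      have hSz := h2' hwJ'
      obtain ⟨t1, t2, t3⟩ := hI.thr h ha hz hxr hxz hxI hwJ' h1' hSz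
      have hww1 : 2 * B w z < B w' w := by
        have h5 := ha.two hwJ'
        rw [mu_skew h z w' w, mu_row hwz hwz' hwI, max_eq_left hwJ'.le] at hww
        rw [h w' w]
        nlinarith
      have hww0 : 0 < B w' w := by omega
      by_cases h7 : Rd (C w') ∧ L x w'
      · obtain ⟨hwr', hL'⟩ := h7
        have h8 : B x w' ≤ 0 := hI.i2' x w' hxr h1' hwr' hL'
        have h9 : 0 ≤ B x w' + B x z := by
          by_cases h10 : B x w' < 0
          · exact t3 h10
          · omega
        have h10 : B x w ≤ 0 := hI.i2' x w hxr h1 hwr hLxw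
        have habs1 : |B x w| = -B x w := abs_of_nonpos h10
        have habs2 : |B x w'| = -B x w' := abs_of_nonpos h8
        have habs3 : |B x z| = B x z := abs_of_nonneg hxI
        have hkey : -B x w ≤ B x z := by
          by_cases hSw' : S w w'
          · have h10 := hI.i4 x w w' hxr hwr hLxw h1 h1' hSw' hwx'
            rw [habs1, habs2] at h10
            omega
          · by_cases hSwz : S w z
            · have h10 := hI.i4 x w z hxr hwr hLxw h1 hSz hSwz (Ne.symm hxz)
              rw [habs1, habs3] at h10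
              exact h10
            · obtain ⟨g1, g2⟩ := hI.i2 w w' hwr hSw' (by rw [h w w']; omega)
              have h10 := hI.i3 w w' z hwr hSw' hSwz g1 g2 (fun g3 => hI.excl hz g3.1) (Ne.symm hwz) hwJ'
              rw [h w w'] at h10
              omega
        omega
      · have h8 := hI.i3 x w w' hxr h1 h1' hwr hLxw h7 hwx' hww0
        omega
  · -- I4
    intro x w l hx hw hL hSw hSl hwl hlx
    obtain ⟨hxz, hL'⟩ := hL
    obtain ⟨hxI, hxr⟩ := hI.red h ha hz hx hxz
    obtain ⟨h1, _⟩ := hns x w hxz hSw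
    obtain ⟨h3, h4⟩ := hns x l hxz hSl
    have habsz : |mu B z x z| = B x z := by
      rw [mu_right, abs_neg, abs_of_nonneg hxI]
    by_cases hwz : w = z
    · subst hwz
      have hlJ : 0 < B w l := by
        rcases hwl with ⟨_, h5⟩ | ⟨h5, _⟩
        · exact h5
        · exact (h5 rfl).elim
      have h5 := (hI.thr h ha hz hxr hxz hxI hlJ h3 (h4 hlJ)).1
      rw [habsz]
      exact le_trans h5 (le_abs_self _)
    · obtain ⟨hwI, hwr⟩ := hI.red h ha hz hw hwz
      have hLxw : L x w := by
        rcases hL' with h5 | h5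
        · exact (hwz h5).elim
        · exact h5
      have hwl' : S w l ∨ (S w z ∧ 0 < B z l) := by
        rcases hwl with ⟨h5, _⟩ | ⟨_, h5⟩
        · exact (hwz h5).elim
        · exact h5
      rw [mu_oo h hxz hwz hxI hwI]
      by_cases hlz : l = z
      · subst hlz
        have h5 : S w l := by
          rcases hwl' with h5 | ⟨h5, _⟩ <;> exact h5
        rw [habsz, ← abs_of_nonneg hxI]
        exact hI.i4 x w l hxr hwr hLxw h1 h3 h5 hlx
      by_cases h5 : 0 ≤ B l z
      · rw [mu_oo h hxz hlz hxI h5]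
        rcases hwl' with h6 | ⟨_, h6⟩
        · exact hI.i4 x w l hxr hwr hLxw h1 h3 h6 hlx
        · exact (hIJ h5 h6).elim
      · have hlJ := hJ h5
        obtain ⟨t1, t2, t3⟩ := hI.thr h ha hz hxr hxz hxI hlJ h3 (h4 hlJ)
        refine le_trans ?_ (le_abs_self _)
        rcases hwl' with h6 | ⟨h6, _⟩
        · have h7 := hI.i4 x w l hxr hwr hLxw h1 h3 h6 hlx
          by_cases h8 : B x l < 0
          · rw [abs_of_neg h8] at h7
            have h10 := t3 h8
            omega
          · rw [abs_of_nonneg (show 0 ≤ B x l by omega)] at h7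
            omega
        · have h7 := hI.i4 x w z hxr hwr hLxw h1 (h4 hlJ) h6 (Ne.symm hxz)
          rw [abs_of_nonneg hxI] at h7
          omega

end Pool.Agent.Lib.MP_153a79_co.MG
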