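import Pool.Agent.Lib.MP_153a79_co.MG.A2

/-!
# A quiver with an oriented cycle in a class without simple arrows has no maximal green sequence
-/

set_option autoImplicit false

namespace Pool.Agent.Lib.MP_153a79_co.MG

variable {n : ℕ} {B : Matrix (Fin n) (Fin n) ℤ} {C : Fin n → Fin n → ℤ} {S L : Fin n → Fin n → Prop}

theorem PT_step (h : Skew B) (ha : NoS B) (hI : Inv B C S L) {z : Fin n} (hz : Gr (C z)) (hP : PT B C) :
    PT (mu B z) (nu B C z) := by
  by_cases hJ : ∃ w, 0 < B z w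
  · obtain ⟨w, hw⟩ := hJ
    refine Or.inl ⟨z, w, ?_, hI.bigGr h ha hz hw, ?_⟩
    · intro i
      rw [nu_self]
      have := hz i
      omega
    · rw [mu_right, h w z]
      omega
  · have hin : ∀ w, 0 ≤ B w z := by
      intro w
      by_contra hc
      apply hJ
      refine ⟨w, ?_⟩
      rw [h z w]
      omega
    rcases hP with ⟨x, y, hx, hy, hxy⟩ | ⟨U, hU, hU1, hU2⟩
    · have hxz : x ≠ z := by
        rintro rfl
        exact hI.excl hz hx
      have hyz : y ≠ z := by
        rintro rfl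
        exact hJ ⟨x, hxy⟩
      refine Or.inl ⟨x, y, ?_, ?_, ?_⟩
      · rw [nu_out h C hxz (hin x)]
        exact hx
      · rw [nu_out h C hyz (hin y)]
        exact hy
      · rw [mu_oo h hyz hxz (hin y) (hin x)]
        exact hxy
    · have hUz : ∀ x ∈ U, x ≠ z := by
        rintro x hx rfl
        obtain ⟨y, _, hy⟩ := hU1 x hx
        exact hJ ⟨y, hy⟩
      refine Or.inr ⟨U, hU, ?_, ?_⟩
      · intro x hx
        obtain ⟨y, hy, hxy⟩ := hU1 x hx
        refine ⟨y, hy, ?_⟩
        rw [mu_oo h (hUz x hx) (hUz y hy) (hin x) (hin y)]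
        exact hxy
      · intro x hx
        rw [nu_out h C (hUz x hx) (hin x)]
        exact hU2 x hx

/-- The extended matrix with the rows `B` and the `c`-vectors `C`. -/
def Ext (B : Matrix (Fin n) (Fin n) ℤ) (C : Fin n → Fin n → ℤ) (M : Matrix (Fin n ⊕ Fin n) (Fin n) ℤ) :
    Prop :=
  (∀ i j, M (Sum.inl i) j = B i j) ∧ ∀ i j, M (Sum.inr i) j = C j i

theorem Ext.step {M : Matrix (Fin n ⊕ Fin n) (Fin n) ℤ} (hM : Ext B C M) {k : Fin n} (hk : Gr (C k)) :
    Ext (mu B k) (nu B C k) (muF M k) := by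
  constructor
  · intro i j
    show (if Sum.inl i = Sum.inl k ∨ j = k then -M (Sum.inl i) j else M (Sum.inl i) j +
      max (M (Sum.inl i) k) 0 * max (M (Sum.inl k) j) 0 - max (-M (Sum.inl i) k) 0 *
      max (-M (Sum.inl k) j) 0) = (if i = k ∨ j = k then -B i j else B i j + max (B i k) 0 * max (B k j) 0
      - max (-B i k) 0 * max (-B k j) 0)
    rw [hM.1, hM.1, hM.1]
    by_cases h1 : i = k ∨ j = k
    · rw [if_pos h1, if_pos (h1.imp (fun h => congrArg Sum.inl h) id)]
    · rw [if_neg h1, if_neg (fun h => h1 (h.imp (fun h => Sum.inl.inj h) id))]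
  · intro i j
    show (if Sum.inr i = Sum.inl k ∨ j = k then -M (Sum.inr i) j else M (Sum.inr i) j +
      max (M (Sum.inr i) k) 0 * max (M (Sum.inl k) j) 0 - max (-M (Sum.inr i) k) 0 *
      max (-M (Sum.inl k) j) 0) = (if j = k then - C k i else C j i + max (B k j) 0 * C k i)
    rw [hM.1, hM.2, hM.2]
    by_cases h1 : j = k
    · rw [if_pos h1, if_pos (Or.inr h1), h1]
    · rw [if_neg h1, if_neg (by rintro (h2 | h2); exacts [Sum.inr_ne_inl h2, h1 h2])]
      have h3 := hk i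
      rw [max_eq_left h3, max_eq_right (show -C k i ≤ 0 by omega)]
      ring

theorem no_mgs_aux (t : List (Fin n)) : ∀ (B : Matrix (Fin n) (Fin n) ℤ) (C : Fin n → Fin n → ℤ)
    (S L : Fin n → Fin n → Prop) (M : Matrix (Fin n ⊕ Fin n) (Fin n) ℤ), Skew B →
    (∀ l₁ l₂ : List (Fin n), t = l₁ ++ l₂ → NoS (l₁.foldl mu B)) → Inv B C S L → PT B C → Ext B C M →
    (∀ l₁ l₂ : List (Fin n), ∀ k : Fin n, t = l₁ ++ k :: l₂ → ∀ i : Fin n, 0 ≤ (l₁.foldl muF M) (Sum.inr i) k) →
    (∀ i j : Fin n, (t.foldl muF M) (Sum.inr i) j ≤ 0) → False := by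
  induction t with
  | nil =>
    intro B C S L M h hab hI hP hM _ hfin
    have hall : ∀ y, Rd (C y) := by
      intro y i
      rw [← hM.2]
      exact hfin i y
    rcases hP with ⟨x, y, _, hy, _⟩ | ⟨U, ⟨x, hx⟩, _, hU2⟩
    · exact hI.excl hy (hall y)
    · exact hI.excl (hU2 x hx) (hall x)
  | cons k t ih =>
    intro B C S L M h hab hI hP hM hgr hfin
    have hk : Gr (C k) := by
      intro i
      rw [← hM.2]
      exact hgr [] t k rfl i
    have ha : NoS B := hab [] _ rfl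
    exact ih (mu B k) (nu B C k) (Sn B S k) (Ln L k) (muF M k) (mu_skew h k)
      (fun l₁ l₂ ht => hab (k :: l₁) l₂ (by rw [ht]; rfl)) (inv_step h ha hI hk)
      (PT_step h ha hI hk hP) (hM.step hk)
      (fun l₁ l₂ k' ht i => hgr (k :: l₁) l₂ k' (by rw [ht]; rfl) i) hfin

/-- A quiver with an oriented cycle has no maximal green sequence whose quivers have no simple arrows. -/
theorem no_mgs_along (h : Skew B) (hT : Cyc B) {t : List (Fin n)} (ht : IsMGS B t)
    (hab : ∀ l₁ l₂ : List (Fin n), t = l₁ ++ l₂ → NoS (l₁.foldl mu B)) : False := by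
  obtain ⟨ht1, ht2⟩ := ht
  have hone : ∀ x : Fin n, ¬ Rd (fun i => (1 : Matrix (Fin n) (Fin n) ℤ) i x) := by
    intro x hx
    have h1 := hx x
    simp only [Matrix.one_apply_eq] at h1
    omega
  have hgr : ∀ x : Fin n, Gr (fun i => (1 : Matrix (Fin n) (Fin n) ℤ) i x) := by
    intro x i
    show 0 ≤ (1 : Matrix (Fin n) (Fin n) ℤ) i x
    rw [Matrix.one_apply]
    split_ifs <;> norm_num
  obtain ⟨U, hU, hU1⟩ := hT
  refine no_mgs_aux t B (fun y i => (1 : Matrix (Fin n) (Fin n) ℤ) i y) (fun _ _ => False)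
    (fun _ _ => False) (Matrix.fromRows B (1 : Matrix (Fin n) (Fin n) ℤ)) h hab
    ?_ (Or.inr ⟨U, hU, hU1, fun x _ => hgr x⟩) ⟨fun _ _ => rfl, fun _ _ => rfl⟩ ht1 ht2
  refine ⟨?_, fun x hx => hx, ?_, ?_, ?_, ?_, ?_, ?_⟩
  · intro y
    refine ⟨Or.inl (hgr y), y, ?_⟩
    show (1 : Matrix (Fin n) (Fin n) ℤ) y y ≠ 0
    rw [Matrix.one_apply_eq]
    norm_num
  · intro x w hx
    exact (hone x hx).elim
  · intro x w hx
    exact (hone x hx).elim
  · intro x w hx
    exact (hone x hx).elim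
  · intro x w hx
    exact (hone x hx).elim
  · intro x w w' hx
    exact (hone x hx).elim
  · intro x w l hx
    exact (hone x hx).elim

/-- A quiver with an oriented cycle, in a mutation class without simple arrows, has no maximal green sequence. -/
theorem no_mgs (h : Skew B) (hab : ∀ B', Reach B B' → NoS B') (hT : Cyc B) : ¬ ∃ t, IsMGS B t := by
  rintro ⟨t, ht⟩
  exact no_mgs_along h hT ht (fun l₁ _ _ => hab _ ⟨l₁, rfl⟩)

end Pool.Agent.Lib.MP_153a79_co.MG
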