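import Pool.Agent.Lib.MP_153a79_co.MG.A1

/-!
# The mutation class of an expanding quiver
-/

set_option autoImplicit false

namespace Pool.Agent.Lib.MP_153a79_co.MG

variable {n : ℕ} {B : Matrix (Fin n) (Fin n) ℤ}

theorem asc_of_expanding (he : Expanding B) (l : Fin n) : Asc B l := by
  intro i j h1 h2 h3
  obtain ⟨h4, h5⟩ := he.2 i j l h3 h2 h1
  apply max_le
  · linarith
  · linarith

/-- The dominated vertex after a mutation at an ascending vertex. -/
theorem dom_step (h : Skew B) (ha : Ab B) {k : Fin n} (hk : Asc B k) : Dom (mu B k) k := by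
  intro i j hi hj
  rw [mu_right, h i k] at hi
  rw [mu_left, h k j] at hj
  have hi' : 0 < B k i := by omega
  have hj' : 0 < B j k := by omega
  rw [mu_right, mu_left, mu_thru h hi' hj', h i k, h k j, neg_neg, neg_neg]
  have h1 := two_le ha h hi'
  have h2 := two_le ha h hj'
  by_cases h3 : 0 < B i j
  · have h4 := hk i j hi' hj' h3
    rw [h j i]
    linarith
  · have h4 : 0 ≤ B j i := by
      rw [h j i]
      omega
    apply max_le
    · nlinarith
    · nlinarith

theorem exp_step (h : Skew B) (ha : Ab B) {k : Fin n} (hk : Asc B k) (hl : ∀ l, Asc B l ∨ Dom B l) :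
    Ab (mu B k) ∧ (∀ l, l ≠ k → Asc (mu B k) l) ∧ Dom (mu B k) k := by
  have hD := dom_step h ha hk
  have h' := mu_skew h k
  -- from the in-neighbours of `k` to the out-neighbours of `k`
  have hJI : ∀ a b, 0 < B k a → 0 < B b k → 2 ≤ mu B k b a := by
    intro a b h1 h2
    have h3 := hD a b (by rw [mu_right, h a k]; omega) (by rw [mu_left, h k b]; omega)
    have h4 := two_le ha h h1
    rw [mu_right, mu_left, h a k, h k b, neg_neg, neg_neg] at h3
    exact le_trans h4 (le_trans (le_max_left _ _) h3)
  have hAb : Ab (mu B k) := by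
    intro i j hij
    by_cases hi : i = k
    · subst hi
      rw [mu_left, abs_neg]
      exact ha i j hij
    by_cases hj : j = k
    · subst hj
      rw [mu_right, abs_neg]
      exact ha i j hij
    rcases side h ha hi with h1 | h1 <;> rcases side h ha hj with h2 | h2
    · rw [mu_out h (by omega) (by omega)]
      exact ha i j hij
    · exact le_trans (hJI j i (by omega) (by omega)) (le_abs_self _)
    · rw [h' i j, abs_neg]
      exact le_trans (hJI i j (by omega) (by omega)) (le_abs_self _)
    · rw [mu_in h (by omega) (by omega)]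
      exact ha i j hij
  refine ⟨hAb, ?_, hD⟩
  intro l hlk i j h1 h2 h3
  by_cases hi : i = k
  · subst hi
    have h4 := hD l j h1 h3
    have h5 := two_le hAb h' h1
    have h6 := le_trans (le_max_right _ _) h4
    have h7 := le_trans (le_max_left _ _) h4
    apply max_le
    · nlinarith
    · nlinarith
  by_cases hj : j = k
  · subst hj
    have h4 := hD i l h3 h2
    have h5 := two_le hAb h' h2
    have h6 := le_trans (le_max_right _ _) h4
    have h7 := le_trans (le_max_left _ _) h4
    apply max_le
    · nlinarith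
    · nlinarith
  -- all three on the same side of `k`
  have hside : (0 < B i k ∧ 0 < B j k ∧ 0 < B l k) ∨ (0 < B k i ∧ 0 < B k j ∧ 0 < B k l) := by
    have hno : ∀ a b, 2 ≤ B k a → 2 ≤ B b k → ¬ 0 < mu B k a b := by
      intro a b g1 g2 g3
      have g4 := hJI a b (by omega) (by omega)
      rw [h' a b] at g3
      omega
    rcases side h ha hi with s1 | s1 <;> rcases side h ha hj with s2 | s2 <;>
      rcases side h ha hlk with s3 | s3
    · exact Or.inl ⟨by omega, by omega, by omega⟩
    · exact (hno l i s3 s1 h1).elim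
    · exact (hno j l s2 s3 h2).elim
    · exact (hno l i s3 s1 h1).elim
    · exact (hno i j s1 s2 h3).elim
    · exact (hno i j s1 s2 h3).elim
    · exact (hno j l s2 s3 h2).elim
    · exact Or.inr ⟨by omega, by omega, by omega⟩
  rcases hside with ⟨s1, s2, s3⟩ | ⟨s1, s2, s3⟩
  · rw [mu_out h s3 s1] at h1 ⊢
    rw [mu_out h s2 s3] at h2 ⊢
    rw [mu_out h s1 s2] at h3 ⊢
    rcases hl l with g | g
    · exact g i j h1 h2 h3
    · exfalso
      have g1 : 0 < B l k := s3
      have g2 := le_trans (le_max_left _ _) (g j k h2 g1)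
      have g3 := h k j
      omega
  · rw [mu_in h s3 s1] at h1 ⊢
    rw [mu_in h s2 s3] at h2 ⊢
    rw [mu_in h s1 s2] at h3 ⊢
    rcases hl l with g | g
    · exact g i j h1 h2 h3
    · exfalso
      have g2 := le_trans (le_max_right _ _) (g k i s3 h1)
      have g3 := h k i
      omega

theorem RW.good (h : Skew B) (he : Expanding B) {w : List (Fin n)} {Q : Matrix (Fin n) (Fin n) ℤ}
    (hr : RW B w Q) : Skew Q ∧ Ab Q ∧ (∀ l, w.head? ≠ some l → Asc Q l) ∧
      (∀ r, w.head? = some r → Dom Q r) := by
  induction hr with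
  | nil =>
    refine ⟨h, he.1, fun l _ => asc_of_expanding he l, ?_⟩
    intro r hr
    simp at hr
  | @cons w Q k hr hk ih =>
    obtain ⟨i1, i2, i3, i4⟩ := ih
    obtain ⟨j1, j2, j3⟩ := exp_step i1 i2 (i3 k hk) (fun l => by
      by_cases hl : w.head? = some l
      · exact Or.inr (i4 l hl)
      · exact Or.inl (i3 l hl))
    refine ⟨mu_skew i1 k, j1, ?_, ?_⟩
    · intro l hl
      apply j2
      rintro rfl
      exact hl rfl
    · intro r hr
      have : k = r := Option.some.inj hr
      rw [← this]
      exact j3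

theorem RW.skew (h : Skew B) {w : List (Fin n)} {Q : Matrix (Fin n) (Fin n) ℤ} (hr : RW B w Q) : Skew Q := by
  induction hr with
  | nil => exact h
  | cons _ _ ih => exact mu_skew ih _

theorem RW.step {w : List (Fin n)} {Q : Matrix (Fin n) (Fin n) ℤ} (hr : RW B w Q) (k : Fin n) :
    ∃ w', RW B w' (mu Q k) := by
  by_cases hk : w.head? = some k
  · cases hr with
    | nil => simp at hk
    | @cons w Q k' hr hk' =>
      have : k' = k := Option.some.inj hk
      subst this
      rw [mu_mu]
      exact ⟨w, hr⟩
  · exact ⟨k :: w, RW.cons hr hk⟩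

theorem reach_RW {Q : Matrix (Fin n) (Fin n) ℤ} (hr : Reach B Q) : ∃ w, RW B w Q := by
  have key : ∀ (s : List (Fin n)) (w : List (Fin n)) (Q : Matrix (Fin n) (Fin n) ℤ), RW B w Q →
      ∃ w', RW B w' (s.foldl mu Q) := by
    intro s
    induction s with
    | nil => intro w Q hr; exact ⟨w, hr⟩
    | cons k s ih =>
      intro w Q hr
      obtain ⟨w', hr'⟩ := hr.step k
      exact ih w' _ hr'
  obtain ⟨s, rfl⟩ := hr
  exact key s [] B RW.nil

/-- Every quiver in the mutation class of an expanding quiver is abundant. -/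
theorem expanding_class (h : Skew B) (he : Expanding B) : ∀ B', Reach B B' → Ab B' := by
  intro B' hr
  obtain ⟨w, hw⟩ := reach_RW hr
  exact (hw.good h he).2.1

end Pool.Agent.Lib.MP_153a79_co.MG
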