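import Pool.Agent.Lib.MP_153a79_co.MG.A4

/-!
# The acyclic members of the mutation class of an abundant acyclic quiver
-/

set_option autoImplicit false

namespace Pool.Agent.Lib.MP_153a79_co.MG

variable {n : ℕ} {B : Matrix (Fin n) (Fin n) ℤ}

theorem flip_apply (B : Matrix (Fin n) (Fin n) ℤ) (S : Finset (Fin n)) (i j : Fin n) :
    flip B S i j = if (i ∈ S ↔ j ∈ S) then B i j else -B i j := rfl

theorem flip_same {S : Finset (Fin n)} {i j : Fin n} (h : i ∈ S ↔ j ∈ S) : flip B S i j = B i j := by
  rw [flip_apply, if_pos h]

theorem flip_diff {S : Finset (Fin n)} {i j : Fin n} (h : ¬ (i ∈ S ↔ j ∈ S)) : flip B S i j = -B i j := by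
  rw [flip_apply, if_neg h]

/-- A mutation at a vertex with in- and out-neighbours creates an oriented triangle. -/
theorem tri_new (h : Skew B) (ha : Ab B) {k : Fin n} (hk : Asc B k) {i j : Fin n} (hi : 0 < B k i)
    (hj : 0 < B j k) : Tri (mu B k) := by
  have hD := dom_step h ha hk
  have h1 : 0 < mu B k i k := by rw [mu_right, h i k]; omega
  have h2 : 0 < mu B k k j := by rw [mu_left, h k j]; omega
  have h3 := le_trans (le_max_left _ _) (hD i j h1 h2)
  exact ⟨i, k, j, h1, h2, by omega⟩

/-- Oriented triangles survive. -/
theorem tri_step (h : Skew B) (ha : Ab B) {k : Fin n} (hk : Asc B k) (hT : Tri B) : Tri (mu B k) := by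
  by_cases hex : (∃ i, 0 < B k i) ∧ ∃ j, 0 < B j k
  · obtain ⟨⟨i, hi⟩, j, hj⟩ := hex
    exact tri_new h ha hk hi hj
  · obtain ⟨x, y, w, h1, h2, h3⟩ := hT
    have hx : x ≠ k := by
      rintro rfl
      exact hex ⟨⟨y, h1⟩, w, h3⟩
    have hy : y ≠ k := by
      rintro rfl
      exact hex ⟨⟨w, h2⟩, x, h1⟩
    have hw : w ≠ k := by
      rintro rfl
      exact hex ⟨⟨x, h3⟩, y, h2⟩
    by_cases hin : ∃ i, 0 < B k i
    · have hall : ∀ a, a ≠ k → 0 < B k a := by
        intro a hak
        rcases side h ha hak with g | g
        · exact (hex ⟨hin, a, by omega⟩).elim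
        · omega
      refine ⟨x, y, w, ?_, ?_, ?_⟩
      · rw [mu_in h (hall x hx) (hall y hy)]; exact h1
      · rw [mu_in h (hall y hy) (hall w hw)]; exact h2
      · rw [mu_in h (hall w hw) (hall x hx)]; exact h3
    · have hall : ∀ a, a ≠ k → 0 < B a k := by
        intro a hak
        rcases side h ha hak with g | g
        · omega
        · exact (hin ⟨a, by omega⟩).elim
      refine ⟨x, y, w, ?_, ?_, ?_⟩
      · rw [mu_out h (hall x hx) (hall y hy)]; exact h1
      · rw [mu_out h (hall y hy) (hall w hw)]; exact h2
      · rw [mu_out h (hall w hw) (hall x hx)]; exact h3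

/-- The matrix after a mutation at a source or a sink. -/
theorem mu_flip (h : Skew B) {S S' : Finset (Fin n)} {k : Fin n}
    (hall : (∀ a, a ≠ k → 0 < flip B S a k) ∨ (∀ a, a ≠ k → 0 < flip B S k a))
    (hSk : Skew (flip B S)) (hS : ∀ a, a ≠ k → (a ∈ S' ↔ a ∈ S)) (hk : k ∈ S' ↔ k ∉ S) :
    mu (flip B S) k = flip B S' := by
  ext i j
  by_cases hi : i = k
  · subst hi
    rw [mu_left]
    by_cases hj : j = i
    · subst hj
      rw [hSk.diag, flip_same Iff.rfl, h.diag, neg_zero]
    · have h1 := hS j hj
      by_cases h2 : i ∈ S ↔ j ∈ S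
      · rw [flip_same h2, flip_diff (by tauto)]
      · rw [flip_diff h2, flip_same (by tauto), neg_neg]
  by_cases hj : j = k
  · subst hj
    rw [mu_right]
    have h1 := hS i hi
    by_cases h2 : i ∈ S ↔ j ∈ S
    · rw [flip_same h2, flip_diff (by tauto)]
    · rw [flip_diff h2, flip_same (by tauto), neg_neg]
  have h1 := hS i hi
  have h2 := hS j hj
  have h3 : mu (flip B S) k i j = flip B S i j := by
    rcases hall with g | g
    · exact mu_out hSk (g i hi) (g j hj)
    · exact mu_in hSk (g i hi) (g j hj)
  rw [h3, flip_apply, flip_apply]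
  by_cases h4 : i ∈ S ↔ j ∈ S
  · rw [if_pos h4, if_pos (by tauto)]
  · rw [if_neg h4, if_neg (by tauto)]

theorem flip_univ (B : Matrix (Fin n) (Fin n) ℤ) : flip B Finset.univ = flip B ∅ := by
  ext i j
  rw [flip_same (by simp), flip_same (by simp)]

/-- The members of the class of an abundant quiver without oriented triangles. -/
theorem acyc_flip (h : Skew B) (he : Expanding B) (hn : 0 < n) {w : List (Fin n)} {Q : Matrix (Fin n) (Fin n) ℤ}
    (hr : RW B w Q) (hT : ¬ Tri B) : Tri Q ∨ ∃ S : Finset (Fin n), S ≠ Finset.univ ∧ Closed B S ∧ Q = flip B S := by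
  classical
  have hne0 : (∅ : Finset (Fin n)) ≠ Finset.univ := by
    intro hc
    have := Finset.mem_univ (⟨0, hn⟩ : Fin n)
    rw [← hc] at this
    exact absurd this (Finset.notMem_empty _)
  induction hr with
  | nil =>
    refine Or.inr ⟨∅, hne0, ?_, ?_⟩
    · intro x hx
      exact absurd hx (Finset.notMem_empty _)
    · ext i j
      rw [flip_same (by simp)]
  | @cons w Q k hr hk ih =>
    obtain ⟨i1, i2, i3, i4⟩ := hr.good h he
    have hkA := i3 k hk
    rcases ih with ih | ⟨S, hS1, hS2, hS3⟩
    · exact Or.inl (tri_step i1 i2 hkA ih)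
    by_cases hex : (∃ i, 0 < Q k i) ∧ ∃ j, 0 < Q j k
    · obtain ⟨⟨i, hi⟩, j, hj⟩ := hex
      exact Or.inl (tri_new i1 i2 hkA hi hj)
    right
    subst hS3
    by_cases hout : ∃ i, 0 < flip B S k i
    · -- `k` is a sink
      have hall : ∀ a, a ≠ k → 0 < flip B S k a := by
        intro a hak
        rcases side i1 i2 hak with g | g
        · exact (hex ⟨hout, a, by omega⟩).elim
        · omega
      by_cases hS0 : S = ∅
      · subst hS0
        refine ⟨Finset.univ.erase k, ?_, ?_, ?_⟩
        · intro hc
          have := Finset.mem_univ k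
          rw [← hc] at this
          exact absurd this (Finset.notMem_erase _ _)
        · intro x hx y hxy
          rw [Finset.mem_erase] at hx ⊢
          refine ⟨?_, Finset.mem_univ _⟩
          rintro rfl
          have h1 := hall x hx.1
          rw [flip_same (by simp)] at h1
          have h2 := h y x
          omega
        · rw [← flip_univ]
          apply mu_flip h (Or.inr (by rw [flip_univ]; exact hall)) (by rw [flip_univ]; exact i1)
          · intro a hak
            simp [hak]
          · simp
      · obtain ⟨y0, hy0⟩ := Finset.nonempty_iff_ne_empty.2 hS0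
        have hkS : k ∈ S := by
          by_contra hkS
          have hne : y0 ≠ k := by
            rintro rfl
            exact hkS hy0
          have h1 := hall y0 hne
          rw [flip_diff (by tauto)] at h1
          have h2 : 0 < B y0 k := by rw [h y0 k]; omega
          exact hkS (hS2 y0 hy0 k h2)
        refine ⟨S.erase k, ?_, ?_, ?_⟩
        · intro hc
          have := Finset.mem_univ k
          rw [← hc] at this
          exact absurd this (Finset.notMem_erase _ _)
        · intro x hx y hxy
          rw [Finset.mem_erase] at hx ⊢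
          refine ⟨?_, hS2 x hx.2 y hxy⟩
          rintro rfl
          have h1 := hall x hx.1
          rw [flip_same (by tauto)] at h1
          have h2 := h y x
          omega
        · apply mu_flip h (Or.inr hall) i1
          · intro a hak
            simp [hak]
          · simp [hkS]
    · -- `k` is a source
      have hall : ∀ a, a ≠ k → 0 < flip B S a k := by
        intro a hak
        rcases side i1 i2 hak with g | g
        · omega
        · exact (hout ⟨a, by omega⟩).elim
      obtain ⟨y0, hy0⟩ : ∃ y, y ∉ S := by
        by_contra hc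
        push Not at hc
        exact hS1 (Finset.eq_univ_of_forall hc)
      have hkS : k ∉ S := by
        intro hkS
        have hne : y0 ≠ k := by
          rintro rfl
          exact hy0 hkS
        have h1 := hall y0 hne
        rw [flip_diff (by tauto)] at h1
        have h2 : 0 < B k y0 := by rw [h k y0]; omega
        exact hy0 (hS2 k hkS y0 h2)
      have hcl : Closed B (insert k S) := by
        intro x hx y hxy
        rw [Finset.mem_insert] at hx ⊢
        rcases hx with hx | hx
        · subst hx
          by_cases hyS : y ∈ S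
          · exact Or.inr hyS
          · have hne : y ≠ x := by
              rintro rfl
              rw [h.diag] at hxy
              omega
            have h1 := hall y hne
            rw [flip_same (by tauto)] at h1
            have h2 := h y x
            omega
        · exact Or.inr (hS2 x hx y hxy)
      have hmu : mu (flip B S) k = flip B (insert k S) := by
        apply mu_flip h (Or.inl hall) i1
        · intro a hak
          simp [hak]
        · simp [hkS]
      by_cases hu : insert k S = Finset.univ
      · refine ⟨∅, hne0, ?_, ?_⟩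
        · intro x hx
          exact absurd hx (Finset.notMem_empty _)
        · rw [hmu, hu, flip_univ]
      · exact ⟨insert k S, hu, hcl, hmu⟩

theorem closed_comp (h : Skew B) (ha : Ab B) {S S' : Finset (Fin n)} (hS : Closed B S) (hS' : Closed B S') :
    S ⊆ S' ∨ S' ⊆ S := by
  by_contra hc
  push Not at hc
  obtain ⟨h1, h2⟩ := hc
  obtain ⟨x, hx, hx'⟩ := Finset.not_subset.1 h1
  obtain ⟨y, hy, hy'⟩ := Finset.not_subset.1 h2
  have hne : x ≠ y := by
    rintro rfl
    exact hx' hy
  rcases side h ha hne with g | g
  · exact hy' (hS x hx y (by omega))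
  · exact hx' (hS' y hy x (by omega))

/-- There are at most `n` members without oriented triangles. -/
theorem acyc_count (h : Skew B) (he : Expanding B) (hn : 0 < n) (hT : ¬ Tri B) :
    {Q | (∃ w, RW B w Q) ∧ ¬ Tri Q}.Finite ∧ {Q | (∃ w, RW B w Q) ∧ ¬ Tri Q}.ncard ≤ n := by
  classical
  have hsub : {Q | (∃ w, RW B w Q) ∧ ¬ Tri Q} ⊆
      flip B '' {S : Finset (Fin n) | S ≠ Finset.univ ∧ Closed B S} := by
    rintro Q ⟨⟨w, hw⟩, hQ⟩
    rcases acyc_flip h he hn hw hT with h1 | ⟨S, h1, h2, h3⟩
    · exact (hQ h1).elim
    · exact ⟨S, ⟨h1, h2⟩, h3.symm⟩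
  have hfin : {S : Finset (Fin n) | S ≠ Finset.univ ∧ Closed B S}.Finite := Set.toFinite _
  have hcard : {S : Finset (Fin n) | S ≠ Finset.univ ∧ Closed B S}.ncard ≤ n := by
    have h1 : {S : Finset (Fin n) | S ≠ Finset.univ ∧ Closed B S}.ncard ≤
        ((Finset.range n : Finset ℕ) : Set ℕ).ncard := by
      apply Set.ncard_le_ncard_of_injOn (fun S : Finset (Fin n) => S.card)
      · intro S hS
        apply Finset.mem_coe.2
        rw [Finset.mem_range]
        have h2 := Finset.card_lt_card (Finset.ssubset_univ_iff.2 hS.1)
        rw [Finset.card_univ, Fintype.card_fin] at h2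
        exact h2
      · intro S hS S' hS' hc
        have hc' : S.card = S'.card := hc
        rcases closed_comp h he.1 hS.2 hS'.2 with g | g
        · exact Finset.eq_of_subset_of_card_le g hc'.ge
        · exact (Finset.eq_of_subset_of_card_le g hc'.le).symm
    rw [Set.ncard_coe_finset, Finset.card_range] at h1
    exact h1
  exact ⟨(hfin.image _).subset hsub, le_trans (Set.ncard_le_ncard hsub (hfin.image _))
    (le_trans (Set.ncard_image_le hfin) hcard)⟩

end Pool.Agent.Lib.MP_153a79_co.MG
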