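import Pool.Agent.Lib.MP_153a79_co.MG.A4

/-!
# The mutation class is infinite
-/

set_option autoImplicit false

namespace Pool.Agent.Lib.MP_153a79_co.MG

variable {n : ℕ} {B : Matrix (Fin n) (Fin n) ℤ}

/-- `k → i → j → k`, the arrow `i → j` is the largest one. -/
def Bg (Q : Matrix (Fin n) (Fin n) ℤ) (k i j : Fin n) (m : ℤ) : Prop :=
  Skew Q ∧ 3 ≤ Q i k ∧ 3 ≤ Q k j ∧ m ≤ Q j i ∧ Q i k ≤ Q j i ∧ Q k j ≤ Q j i

theorem Bg.step {Q : Matrix (Fin n) (Fin n) ℤ} {k i j : Fin n} {m : ℤ} (hm : 1 ≤ m) (h : Bg Q k i j m) :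
    Bg (mu Q i) i k j (m + 1) := by
  obtain ⟨h1, h2, h3, h4, h5, h6⟩ := h
  have g1 : mu Q i k i = Q i k := by rw [mu_right, h1 i k]
  have g2 : mu Q i i j = Q j i := by rw [mu_left, h1 j i]
  have g3 : mu Q i j k = Q j k + Q j i * Q i k := mu_thru h1 (by omega) (by omega)
  have g4 := h1 j k
  have g5 : 3 * Q j i ≤ Q j i * Q i k := by nlinarith
  refine ⟨mu_skew h1 i, ?_, ?_, ?_, ?_, ?_⟩
  · rw [g1]; exact h2
  · rw [g2]; omega
  · rw [g3]; omega
  · rw [g1, g3]; omega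
  · rw [g2, g3]; omega

theorem Bg.many (m : ℕ) : ∀ {Q : Matrix (Fin n) (Fin n) ℤ} {k i j : Fin n}, Bg Q k i j 1 →
    ∃ s : List (Fin n), ∃ k' i' : Fin n, Bg (s.foldl mu Q) k' i' j (1 + m) := by
  induction m with
  | zero =>
    intro Q k i j h
    exact ⟨[], k, i, by simpa using h⟩
  | succ m ih =>
    intro Q k i j h
    obtain ⟨s, k', i', h'⟩ := ih h
    refine ⟨s ++ [i'], i', k', ?_⟩
    rw [List.foldl_append]
    have h2 := Bg.step (show (1 : ℤ) ≤ 1 + m by omega) h'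
    have h3 : (1 : ℤ) + m + 1 = 1 + ((m + 1 : ℕ) : ℤ) := by push_cast; ring
    rw [h3] at h2
    exact h2

theorem infinite_class (h : Skew B) (he : Expanding B) (h3 : ∀ i j, i ≠ j → 3 ≤ |B i j|) (hn : 3 ≤ n) :
    {B' | Reach B B'}.Infinite := by
  -- a vertex with in- and out-neighbours
  have hne : ∀ a b : Fin n, a ≠ b → 0 < B a b ∨ 0 < B b a := by
    intro a b hab
    have h1 := h3 a b hab
    have h2 := h a b
    rcases abs_cases (B a b) with h4 | h4 <;> omega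
  obtain ⟨k, i, j, hi, hj⟩ : ∃ k i j : Fin n, 0 < B k i ∧ 0 < B j k := by
    have hab : (⟨0, by omega⟩ : Fin n) ≠ ⟨1, by omega⟩ := by simp [Fin.ext_iff]
    have hac : (⟨0, by omega⟩ : Fin n) ≠ ⟨2, by omega⟩ := by simp [Fin.ext_iff]
    have hbc : (⟨1, by omega⟩ : Fin n) ≠ ⟨2, by omega⟩ := by simp [Fin.ext_iff]
    rcases hne _ _ hab with g1 | g1 <;> rcases hne _ _ hac with g2 | g2 <;> rcases hne _ _ hbc with g3 | g3
    · exact ⟨_, _, _, g3, g1⟩
    · exact ⟨_, _, _, g3, g2⟩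
    · exact ⟨_, _, _, g1, g2⟩
    · exact ⟨_, _, _, g1, g2⟩
    · exact ⟨_, _, _, g2, g1⟩
    · exact ⟨_, _, _, g2, g1⟩
    · exact ⟨_, _, _, g2, g3⟩
    · exact ⟨_, _, _, g1, g3⟩
  have hD := dom_step h he.1 (asc_of_expanding he k)
  have e1 : mu B k i k = B k i := by rw [mu_right, h k i]
  have e2 : mu B k k j = B j k := by rw [mu_left, h j k]
  have hd := hD i j (by rw [e1]; exact hi) (by rw [e2]; exact hj)
  rw [e1, e2] at hd
  have hki : 3 ≤ B k i := by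
    have h1 := h3 k i (by rintro rfl; rw [h.diag] at hi; omega)
    rwa [abs_of_pos hi] at h1
  have hjk : 3 ≤ B j k := by
    have h1 := h3 j k (by rintro rfl; rw [h.diag] at hj; omega)
    rwa [abs_of_pos hj] at h1
  have hb : Bg (mu B k) k i j 1 := by
    refine ⟨mu_skew h k, ?_, ?_, ?_, ?_, ?_⟩
    · rw [e1]; exact hki
    · rw [e2]; exact hjk
    · have := le_trans (le_max_left _ _) hd
      omega
    · rw [e1]; exact le_trans (le_max_left _ _) hd
    · rw [e2]; exact le_trans (le_max_right _ _) hd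
  intro hfin
  have hfin2 : ((fun p : Matrix (Fin n) (Fin n) ℤ × Fin n × Fin n => p.1 p.2.1 p.2.2) ''
      ({B' | Reach B B'} ×ˢ (Set.univ : Set (Fin n × Fin n)))).Finite :=
    (hfin.prod Set.finite_univ).image _
  obtain ⟨M, hM⟩ := hfin2.bddAbove
  obtain ⟨s, k', i', hs⟩ := Bg.many (M.toNat) hb
  have h1 : s.foldl mu (mu B k) j i' ≤ M := by
    apply hM
    refine ⟨(s.foldl mu (mu B k), j, i'), ⟨⟨k :: s, rfl⟩, Set.mem_univ _⟩, rfl⟩
  have h2 := hs.2.2.2.1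
  have h4 := Int.self_le_toNat M
  omega

end Pool.Agent.Lib.MP_153a79_co.MG
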