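import Pool.Agent.Lib.MP_153a79_co.MG.Defs

/-!
# Almost all quivers are expanding

PROOF. Union bound. If `B ∈ Sk n N` is not in the set then `|B i j| ≤ 2` for some `i ≠ j`, or there are `i, j, k` with
`B i j, B j k, B k i ≥ 3`, `B i j > (B j k - 1) * B k i` (up to the order of the triangle the second inequality is of the same form:
`B i j > (B k i - 1) * B j k`).
Injections: `{B ∈ Sk : |B i j| ≤ 2} × [-N, N] → [-2, 2] × Sk`, `(B, v) ↦ (B i j, B with the entries (i,j), (j,i) replaced by v, -v)`; similarly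
for a triple of pairwise different indices and triples of values. So the first event has at most `5 / (2N + 1) * #Sk` elements, and the second
at most `#A / (2N+1)^3 * #Sk`, `A = {(u, v, w) ∈ [1, N]^3 : u > (v - 1) w, v ≥ 2}`, `#A ≤ N * #{(v', w) : v' w < N} ≤ N * N (1 + log N)` (`harmonic_le_one_add_log`).
Sum over `n^2` pairs and `2 n^3` triples: `5 n^2 / (2N) + 2 n^3 (1 + log N) / (8 N) ≤ 3 n^3 (1 + log N) / N`.
-/

set_option autoImplicit false

namespace Pool.Agent.Lib.MP_153a79_co.MG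

theorem Sk_finite (n N : ℕ) : (Sk n N).Finite := by
  have h1 : {B : Matrix (Fin n) (Fin n) ℤ | ∀ i, B i ∈ {r : Fin n → ℤ | ∀ j, r j ∈ Set.Icc (-(N : ℤ)) N}}.Finite :=
    Set.Finite.pi' fun _ => Set.Finite.pi' fun _ => Set.finite_Icc _ _
  refine h1.subset ?_
  intro B hB i j
  exact abs_le.1 (hB.2 i j)

private theorem D1_sk {n N : ℕ} {B : Matrix (Fin n) (Fin n) ℤ} (hB : B ∈ Sk n N) (a b : Fin n) :
    B a b = - B b a := by
  have h := congrFun (congrFun hB.1 b) a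
  simpa using h

private theorem D1_icc (N : ℕ) : (Set.Icc (-(N : ℤ)) N).ncard = 2 * N + 1 := by
  rw [← Finset.coe_Icc, Set.ncard_coe_finset, Int.card_Icc]
  omega

/-- one pair of entries replaced -/
private def up2 {n : ℕ} (B : Matrix (Fin n) (Fin n) ℤ) (i j : Fin n) (v : ℤ) :
    Matrix (Fin n) (Fin n) ℤ :=
  Matrix.of (fun a b => if a = i ∧ b = j then v else if a = j ∧ b = i then -v else B a b)

private theorem D1_up2_mem {n N : ℕ} {B : Matrix (Fin n) (Fin n) ℤ} (hB : B ∈ Sk n N) {i j : Fin n}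
    (hij : i ≠ j) {v : ℤ} (hv : v ∈ Set.Icc (-(N : ℤ)) N) : up2 B i j v ∈ Sk n N := by
  refine ⟨?_, ?_⟩
  · ext a b
    show up2 B i j v b a = - up2 B i j v a b
    by_cases h1 : a = i ∧ b = j
    · obtain ⟨rfl, rfl⟩ := h1
      have h2 : ¬ (b = a ∧ a = b) := fun h => hij h.2
      simp only [up2, Matrix.of_apply, if_neg h2, and_self, if_true]
    · by_cases h2 : a = j ∧ b = i
      · obtain ⟨rfl, rfl⟩ := h2
        have h3 : ¬ (a = b ∧ b = a) := fun h => hij h.2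
        simp only [up2, Matrix.of_apply, if_neg h3, and_self, if_true, neg_neg]
      · have h3 : ¬ (b = i ∧ a = j) := fun h => h2 ⟨h.2, h.1⟩
        have h4 : ¬ (b = j ∧ a = i) := fun h => h1 ⟨h.2, h.1⟩
        simp only [up2, Matrix.of_apply, if_neg h1, if_neg h2, if_neg h3, if_neg h4]
        exact D1_sk hB b a
  · intro a b
    have hv' : |v| ≤ N := abs_le.2 hv
    show |up2 B i j v a b| ≤ N
    simp only [up2, Matrix.of_apply]
    split_ifs
    · exact hv'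
    · rwa [abs_neg]
    · exact hB.2 a b

private theorem D1_pair (n N : ℕ) {i j : Fin n} (hij : i ≠ j) :
    (Sk n N ∩ {B | |B i j| ≤ 2}).ncard * (2 * N + 1) ≤ 5 * (Sk n N).ncard := by
  have h1 : ((Sk n N ∩ {B | |B i j| ≤ 2}) ×ˢ Set.Icc (-(N : ℤ)) N).ncard ≤
      (Set.Icc (-2 : ℤ) 2 ×ˢ Sk n N).ncard := by
    refine Set.ncard_le_ncard_of_injOn (fun q => (q.1 i j, up2 q.1 i j q.2)) ?_ ?_
      ((Set.finite_Icc _ _).prod (Sk_finite n N))
    · rintro ⟨B, v⟩ ⟨⟨hB, hb⟩, hv⟩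
      exact ⟨abs_le.1 hb, D1_up2_mem hB hij hv⟩
    · rintro ⟨B, v⟩ ⟨⟨hB, _⟩, _⟩ ⟨B', v'⟩ ⟨⟨hB', _⟩, _⟩ h
      have hB1 : B ∈ Sk n N := hB
      have hB1' : B' ∈ Sk n N := hB'
      have e1 : B i j = B' i j := congrArg Prod.fst h
      have e2 : up2 B i j v = up2 B' i j v' := congrArg Prod.snd h
      have e3 : ∀ a b, up2 B i j v a b = up2 B' i j v' a b := fun a b => by rw [e2]
      have ev : v = v' := by
        have := e3 i j
        simpa [up2] using this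
      have eB : B = B' := by
        ext a b
        by_cases h1 : a = i ∧ b = j
        · rw [h1.1, h1.2]; exact e1
        by_cases h2 : a = j ∧ b = i
        · rw [h2.1, h2.2, D1_sk hB1 j i, D1_sk hB1' j i, e1]
        have := e3 a b
        simpa only [up2, Matrix.of_apply, if_neg h1, if_neg h2] using this
      rw [ev, eB]
  rw [Set.ncard_prod, Set.ncard_prod, D1_icc] at h1
  have h2 : (Set.Icc (-2 : ℤ) 2).ncard = 5 := D1_icc 2
  rw [h2] at h1
  exact h1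

/-- three pairs of entries replaced -/
private def up3 {n : ℕ} (B : Matrix (Fin n) (Fin n) ℤ) (i j k : Fin n) (q : ℤ × ℤ × ℤ) :
    Matrix (Fin n) (Fin n) ℤ :=
  up2 (up2 (up2 B i j q.1) j k q.2.1) k i q.2.2

private theorem D1_triple (n N : ℕ) {i j k : Fin n} (hij : i ≠ j) (hjk : j ≠ k) (hki : k ≠ i)
    {A : Set (ℤ × ℤ × ℤ)} (hA : A.Finite) :
    (Sk n N ∩ {B | (B i j, B j k, B k i) ∈ A}).ncard * (2 * N + 1) ^ 3 ≤
      A.ncard * (Sk n N).ncard := by
  have h1 : ((Sk n N ∩ {B | (B i j, B j k, B k i) ∈ A}) ×ˢ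
      (Set.Icc (-(N : ℤ)) N ×ˢ Set.Icc (-(N : ℤ)) N ×ˢ Set.Icc (-(N : ℤ)) N)).ncard ≤
      (A ×ˢ Sk n N).ncard := by
    refine Set.ncard_le_ncard_of_injOn
      (fun q => ((q.1 i j, q.1 j k, q.1 k i), up3 q.1 i j k q.2)) ?_ ?_
      (hA.prod (Sk_finite n N))
    · rintro ⟨B, u, v, w⟩ ⟨⟨hB, hb⟩, hu, hv, hw⟩
      exact ⟨hb, D1_up2_mem (D1_up2_mem (D1_up2_mem hB hij hu) hjk hv) hki hw⟩
    · rintro ⟨B, u, v, w⟩ ⟨⟨hB, _⟩, _⟩ ⟨B', u', v', w'⟩ ⟨⟨hB', _⟩, _⟩ h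
      have hB1 : B ∈ Sk n N := hB
      have hB1' : B' ∈ Sk n N := hB'
      have e0 : (B i j, B j k, B k i) = (B' i j, B' j k, B' k i) := congrArg Prod.fst h
      have e1 : B i j = B' i j := congrArg Prod.fst e0
      have e1' : B j k = B' j k := congrArg (fun q => q.2.1) e0
      have e1'' : B k i = B' k i := congrArg (fun q => q.2.2) e0
      have e2 : up3 B i j k (u, v, w) = up3 B' i j k (u', v', w') := congrArg Prod.snd h
      have e3 : ∀ a b, up3 B i j k (u, v, w) a b = up3 B' i j k (u', v', w') a b :=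
        fun a b => by rw [e2]
      have hji := hij.symm
      have hkj := hjk.symm
      have hik := hki.symm
      have eu : u = u' := by
        have := e3 i j
        simpa [up3, up2, hij, hjk, hki, hji, hkj, hik] using this
      have ev : v = v' := by
        have := e3 j k
        simpa [up3, up2, hij, hjk, hki, hji, hkj, hik] using this
      have ew : w = w' := by
        have := e3 k i
        simpa [up3, up2, hij, hjk, hki, hji, hkj, hik] using this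
      have eB : B = B' := by
        ext a b
        by_cases h1 : a = i ∧ b = j
        · rw [h1.1, h1.2]; exact e1
        by_cases h2 : a = j ∧ b = i
        · rw [h2.1, h2.2, D1_sk hB1 j i, D1_sk hB1' j i, e1]
        by_cases h3 : a = j ∧ b = k
        · rw [h3.1, h3.2]; exact e1'
        by_cases h4 : a = k ∧ b = j
        · rw [h4.1, h4.2, D1_sk hB1 k j, D1_sk hB1' k j, e1']
        by_cases h5 : a = k ∧ b = i
        · rw [h5.1, h5.2]; exact e1''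
        by_cases h6 : a = i ∧ b = k
        · rw [h6.1, h6.2, D1_sk hB1 i k, D1_sk hB1' i k, e1'']
        have := e3 a b
        simpa only [up3, up2, Matrix.of_apply, if_neg h1, if_neg h2, if_neg h3, if_neg h4,
          if_neg h5, if_neg h6] using this
      rw [eu, ev, ew, eB]
  rw [Set.ncard_prod, Set.ncard_prod, Set.ncard_prod, Set.ncard_prod, D1_icc] at h1
  calc _ = (Sk n N ∩ {B | (B i j, B j k, B k i) ∈ A}).ncard *
      ((2 * N + 1) * ((2 * N + 1) * (2 * N + 1))) := by ring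
    _ ≤ _ := h1

/-- the bad triples of values -/
private def Ba (N : ℕ) : Set (ℤ × ℤ × ℤ) :=
  {q | q.1 ≤ N ∧ 2 ≤ q.2.1 ∧ 1 ≤ q.2.2 ∧ (q.2.1 - 1) * q.2.2 < q.1}

/-- the bad triples of values, second form -/
private def Bb (N : ℕ) : Set (ℤ × ℤ × ℤ) :=
  {q | q.1 ≤ N ∧ 1 ≤ q.2.1 ∧ 2 ≤ q.2.2 ∧ (q.2.2 - 1) * q.2.1 < q.1}

/-- the target of the injections -/
private def Tg (N : ℕ) : Finset (ℕ × (Σ _ : ℕ, ℕ)) :=
  Finset.Icc 1 N ×ˢ ((Finset.Icc 1 N).sigma (fun v => Finset.Icc 1 (N / v)))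

private theorem D1_Tg (N : ℕ) : (Tg N).card = N * ∑ v ∈ Finset.Icc 1 N, N / v := by
  simp [Tg, Finset.card_sigma]

private theorem D1_mem_Tg {N : ℕ} {u v w : ℤ} (h1 : u ≤ N) (h2 : 1 ≤ v) (h3 : 1 ≤ w)
    (h4 : v * w < u) :
    ((u.toNat, ⟨v.toNat, w.toNat⟩) : ℕ × (Σ _ : ℕ, ℕ)) ∈ Tg N := by
  have h5 : 1 ≤ v * w := by nlinarith
  obtain ⟨a, rfl⟩ := Int.eq_ofNat_of_zero_le (by linarith : 0 ≤ u)
  obtain ⟨b, rfl⟩ := Int.eq_ofNat_of_zero_le (by linarith : 0 ≤ v)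
  obtain ⟨c, rfl⟩ := Int.eq_ofNat_of_zero_le (by linarith : 0 ≤ w)
  have h1' : a ≤ N := by exact_mod_cast h1
  have h2' : 1 ≤ b := by exact_mod_cast h2
  have h3' : 1 ≤ c := by exact_mod_cast h3
  have h4' : b * c < a := by exact_mod_cast h4
  have h6 : c ≤ N / b := by
    rw [Nat.le_div_iff_mul_le (by omega)]
    calc c * b = b * c := mul_comm _ _
      _ ≤ N := by omega
  have h7 : b ≤ N := by nlinarith
  simp only [Tg, Finset.mem_product, Finset.mem_sigma, Finset.mem_Icc, Int.toNat_natCast]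
  exact ⟨⟨by nlinarith, h1'⟩, ⟨h2', h7⟩, h3', h6⟩

private theorem D1_Ba (N : ℕ) : (Ba N).Finite ∧ (Ba N).ncard ≤ N * ∑ v ∈ Finset.Icc 1 N, N / v := by
  have hinj : Set.InjOn (fun q : ℤ × ℤ × ℤ =>
      ((q.1.toNat, ⟨(q.2.1 - 1).toNat, q.2.2.toNat⟩) : ℕ × (Σ _ : ℕ, ℕ))) (Ba N) := by
    rintro ⟨u, v, w⟩ ⟨_, h2, h3, h4⟩ ⟨u', v', w'⟩ ⟨_, h2', h3', h4'⟩ h
    simp only [Prod.mk.injEq, Sigma.mk.injEq, heq_eq_eq] at h
    simp only at h2 h3 h4 h2' h3' h4'
    have h5 : 0 < (v - 1) * w := mul_pos (by omega) (by omega)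
    have h6 : 0 < (v' - 1) * w' := mul_pos (by omega) (by omega)
    obtain ⟨h7, h8, h9⟩ := h
    have : u = u' := by omega
    have : v = v' := by omega
    have : w = w' := by omega
    simp_all
  have hmap : ∀ q ∈ Ba N, ((q.1.toNat, ⟨(q.2.1 - 1).toNat, q.2.2.toNat⟩) : ℕ × (Σ _ : ℕ, ℕ)) ∈
      (Tg N : Set (ℕ × (Σ _ : ℕ, ℕ))) := by
    rintro ⟨u, v, w⟩ ⟨h1, h2, h3, h4⟩
    have h2' : 2 ≤ v := h2
    exact D1_mem_Tg h1 (by show 1 ≤ v - 1; omega) h3 h4
  refine ⟨Set.Finite.of_finite_image ((Tg N).finite_toSet.subset (Set.image_subset_iff.2 hmap)) hinj,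
    ?_⟩
  rw [← D1_Tg, ← Set.ncard_coe_finset]
  exact Set.ncard_le_ncard_of_injOn _ hmap hinj (Finset.finite_toSet _)

private theorem D1_Bb (N : ℕ) : (Bb N).Finite ∧ (Bb N).ncard ≤ N * ∑ v ∈ Finset.Icc 1 N, N / v := by
  have hinj : Set.InjOn (fun q : ℤ × ℤ × ℤ =>
      ((q.1.toNat, ⟨(q.2.2 - 1).toNat, q.2.1.toNat⟩) : ℕ × (Σ _ : ℕ, ℕ))) (Bb N) := by
    rintro ⟨u, v, w⟩ ⟨_, h2, h3, h4⟩ ⟨u', v', w'⟩ ⟨_, h2', h3', h4'⟩ h
    simp only [Prod.mk.injEq, Sigma.mk.injEq, heq_eq_eq] at h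
    simp only at h2 h3 h4 h2' h3' h4'
    have h5 : 0 < (w - 1) * v := mul_pos (by omega) (by omega)
    have h6 : 0 < (w' - 1) * v' := mul_pos (by omega) (by omega)
    obtain ⟨h7, h8, h9⟩ := h
    have : u = u' := by omega
    have : v = v' := by omega
    have : w = w' := by omega
    simp_all
  have hmap : ∀ q ∈ Bb N, ((q.1.toNat, ⟨(q.2.2 - 1).toNat, q.2.1.toNat⟩) : ℕ × (Σ _ : ℕ, ℕ)) ∈
      (Tg N : Set (ℕ × (Σ _ : ℕ, ℕ))) := by
    rintro ⟨u, v, w⟩ ⟨h1, h2, h3, h4⟩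
    have h3' : 2 ≤ w := h3
    exact D1_mem_Tg h1 (by show 1 ≤ w - 1; omega) h2 h4
  refine ⟨Set.Finite.of_finite_image ((Tg N).finite_toSet.subset (Set.image_subset_iff.2 hmap)) hinj,
    ?_⟩
  rw [← D1_Tg, ← Set.ncard_coe_finset]
  exact Set.ncard_le_ncard_of_injOn _ hmap hinj (Finset.finite_toSet _)

private theorem D1_sum (N : ℕ) : ((∑ v ∈ Finset.Icc 1 N, N / v : ℕ) : ℝ) ≤ N * (1 + Real.log N) := by
  have h1 := harmonic_le_one_add_log N
  rw [harmonic_eq_sum_Icc] at h1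
  push_cast at h1
  calc ((∑ v ∈ Finset.Icc 1 N, N / v : ℕ) : ℝ) = ∑ v ∈ Finset.Icc 1 N, ((N / v : ℕ) : ℝ) := by
        push_cast; rfl
    _ ≤ ∑ v ∈ Finset.Icc 1 N, (N : ℝ) * ((v : ℝ))⁻¹ := by
        refine Finset.sum_le_sum fun v _ => ?_
        rw [← div_eq_mul_inv]
        exact Nat.cast_div_le
    _ = N * ∑ v ∈ Finset.Icc 1 N, ((v : ℝ))⁻¹ := by rw [Finset.mul_sum]
    _ ≤ N * (1 + Real.log N) := mul_le_mul_of_nonneg_left h1 (Nat.cast_nonneg N)

theorem density (n N : ℕ) (hn : 1 ≤ n) (hN : 1 ≤ N) :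
    ((Sk n N \ {B | Expanding B ∧ ∀ i j, i ≠ j → 3 ≤ |B i j|}).ncard : ℝ) ≤
      3 * (n : ℝ) ^ 3 * (1 + Real.log N) / N * ((Sk n N).ncard : ℝ) := by
  classical
  have hfin := Sk_finite n N
  set S : ℝ := ((Sk n N).ncard : ℝ) with hS
  have hS0 : 0 ≤ S := Nat.cast_nonneg _
  -- the covering
  let P : Fin n × Fin n → Set (Matrix (Fin n) (Fin n) ℤ) := fun q =>
    if q.1 = q.2 then ∅ else Sk n N ∩ {B | |B q.1 q.2| ≤ 2}
  let Q1 : Fin n × Fin n × Fin n → Set (Matrix (Fin n) (Fin n) ℤ) := fun q =>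
    if q.1 = q.2.1 ∨ q.2.1 = q.2.2 ∨ q.2.2 = q.1 then ∅
    else Sk n N ∩ {B | (B q.1 q.2.1, B q.2.1 q.2.2, B q.2.2 q.1) ∈ Ba N}
  let Q2 : Fin n × Fin n × Fin n → Set (Matrix (Fin n) (Fin n) ℤ) := fun q =>
    if q.1 = q.2.1 ∨ q.2.1 = q.2.2 ∨ q.2.2 = q.1 then ∅
    else Sk n N ∩ {B | (B q.1 q.2.1, B q.2.1 q.2.2, B q.2.2 q.1) ∈ Bb N}
  have hPf : ∀ q, (P q).Finite := fun q => by
    by_cases h : q.1 = q.2
    · simp [P, h]
    · simp only [P, if_neg h]; exact hfin.subset Set.inter_subset_left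
  have hQ1f : ∀ q, (Q1 q).Finite := fun q => by
    by_cases h : q.1 = q.2.1 ∨ q.2.1 = q.2.2 ∨ q.2.2 = q.1
    · simp [Q1, h]
    · simp only [Q1, if_neg h]; exact hfin.subset Set.inter_subset_left
  have hQ2f : ∀ q, (Q2 q).Finite := fun q => by
    by_cases h : q.1 = q.2.1 ∨ q.2.1 = q.2.2 ∨ q.2.2 = q.1
    · simp [Q2, h]
    · simp only [Q2, if_neg h]; exact hfin.subset Set.inter_subset_left
  have hcov : Sk n N \ {B | Expanding B ∧ ∀ i j, i ≠ j → 3 ≤ |B i j|} ⊆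
      (⋃ q, P q) ∪ ((⋃ q, Q1 q) ∪ (⋃ q, Q2 q)) := by
    rintro B ⟨hB, hbad⟩
    by_cases h3 : ∀ i j, i ≠ j → 3 ≤ |B i j|
    · have hexp : ¬ Expanding B := fun h => hbad ⟨h, h3⟩
      have hab : Ab B := fun i j hij => by have := h3 i j hij; omega
      have hdiag : ∀ i, B i i = 0 := fun i => by have := D1_sk hB i i; omega
      have hex : ∃ i j k, 0 < B i j ∧ 0 < B j k ∧ 0 < B k i ∧
          ¬ (B i j ≤ (B j k - 1) * B k i ∧ B i j ≤ (B k i - 1) * B j k) := by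
        by_contra hno
        apply hexp
        refine ⟨hab, fun i j k a b c => ?_⟩
        by_contra hnn
        exact hno ⟨i, j, k, a, b, c, hnn⟩
      obtain ⟨i, j, k, a, b, c, hnn⟩ := hex
      have hij : i ≠ j := fun h => by rw [h, hdiag] at a; omega
      have hjk : j ≠ k := fun h => by rw [h, hdiag] at b; omega
      have hki : k ≠ i := fun h => by rw [h, hdiag] at c; omega
      have hne : ¬ (i = j ∨ j = k ∨ k = i) := by
        rintro (h | h | h)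
        · exact hij h
        · exact hjk h
        · exact hki h
      have b3 : 3 ≤ B j k := by have := h3 j k hjk; rwa [abs_of_pos b] at this
      have c3 : 3 ≤ B k i := by have := h3 k i hki; rwa [abs_of_pos c] at this
      have aN : B i j ≤ N := (abs_le.1 (hB.2 i j)).2
      right
      by_cases hc : B i j ≤ (B j k - 1) * B k i
      · right
        rw [Set.mem_iUnion]
        refine ⟨(i, j, k), ?_⟩
        have hc2 : (B k i - 1) * B j k < B i j := by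
          by_contra h
          exact hnn ⟨hc, not_lt.1 h⟩
        show B ∈ if i = j ∨ j = k ∨ k = i then ∅ else
          Sk n N ∩ {B | (B i j, B j k, B k i) ∈ Bb N}
        rw [if_neg hne]
        exact ⟨hB, aN, by show 1 ≤ B j k; omega, by show 2 ≤ B k i; omega, hc2⟩
      · left
        rw [Set.mem_iUnion]
        refine ⟨(i, j, k), ?_⟩
        show B ∈ if i = j ∨ j = k ∨ k = i then ∅ else
          Sk n N ∩ {B | (B i j, B j k, B k i) ∈ Ba N}
        rw [if_neg hne]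
        exact ⟨hB, aN, by show 2 ≤ B j k; omega, by show 1 ≤ B k i; omega, not_le.1 hc⟩
    · left
      have hex : ∃ i j, i ≠ j ∧ ¬ 3 ≤ |B i j| := by
        by_contra hno
        apply h3
        intro i j hij
        by_contra hnn
        exact hno ⟨i, j, hij, hnn⟩
      obtain ⟨i, j, hij, hnn⟩ := hex
      rw [Set.mem_iUnion]
      refine ⟨(i, j), ?_⟩
      show B ∈ if i = j then ∅ else Sk n N ∩ {B | |B i j| ≤ 2}
      rw [if_neg hij]
      exact ⟨hB, by show |B i j| ≤ 2; omega⟩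
  have hPu : (⋃ q, P q).Finite := Set.finite_iUnion hPf
  have hQ1u : (⋃ q, Q1 q).Finite := Set.finite_iUnion hQ1f
  have hQ2u : (⋃ q, Q2 q).Finite := Set.finite_iUnion hQ2f
  have hub : (Sk n N \ {B | Expanding B ∧ ∀ i j, i ≠ j → 3 ≤ |B i j|}).ncard ≤
      (∑ q, (P q).ncard) + ((∑ q, (Q1 q).ncard) + ∑ q, (Q2 q).ncard) := by
    refine (Set.ncard_le_ncard hcov (hPu.union (hQ1u.union hQ2u))).trans ?_
    refine (Set.ncard_union_le _ _).trans (Nat.add_le_add ?_ ?_)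
    · exact Set.ncard_iUnion_le_of_fintype P
    · exact (Set.ncard_union_le _ _).trans
        (Nat.add_le_add (Set.ncard_iUnion_le_of_fintype Q1) (Set.ncard_iUnion_le_of_fintype Q2))
  have hN0 : (0 : ℝ) < N := by exact_mod_cast hN
  have hM : (0 : ℝ) < 2 * N + 1 := by positivity
  have hL : 0 ≤ Real.log N := Real.log_nonneg (by exact_mod_cast hN)
  -- pairs
  have hPb : ∀ q, ((P q).ncard : ℝ) ≤ 5 / 2 / N * S := by
    intro q
    by_cases h : q.1 = q.2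
    · have : (P q) = ∅ := by simp [P, h]
      rw [this]
      simp only [Set.ncard_empty, Nat.cast_zero]
      positivity
    · have h1 := D1_pair n N h
      have h2 : P q = Sk n N ∩ {B | |B q.1 q.2| ≤ 2} := by simp only [P, if_neg h]
      rw [← h2] at h1
      have h3 : ((P q).ncard : ℝ) * (2 * N + 1) ≤ 5 * S := by
        rw [hS]
        exact_mod_cast h1
      have h4 : ((P q).ncard : ℝ) * (2 * N) ≤ 5 * S := by
        have : 0 ≤ ((P q).ncard : ℝ) := Nat.cast_nonneg _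
        nlinarith
      rw [div_mul_eq_mul_div, le_div_iff₀ hN0]
      linarith
  have htri : ∀ (q : Fin n × Fin n × Fin n) (A : Set (ℤ × ℤ × ℤ)), A.Finite →
      A.ncard ≤ N * ∑ v ∈ Finset.Icc 1 N, N / v →
      ¬ (q.1 = q.2.1 ∨ q.2.1 = q.2.2 ∨ q.2.2 = q.1) →
      ((Sk n N ∩ {B | (B q.1 q.2.1, B q.2.1 q.2.2, B q.2.2 q.1) ∈ A}).ncard : ℝ) ≤
        (1 + Real.log N) / 8 / N * S := by
    intro q A hA hAc hne
    have h1 := D1_triple n N (i := q.1) (j := q.2.1) (k := q.2.2) (fun h => hne (Or.inl h))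
      (fun h => hne (Or.inr (Or.inl h))) (fun h => hne (Or.inr (Or.inr h))) hA
    set x : ℕ := (Sk n N ∩ {B | (B q.1 q.2.1, B q.2.1 q.2.2, B q.2.2 q.1) ∈ A}).ncard with hx
    have h2 : (x : ℝ) * (2 * N + 1) ^ 3 ≤ (A.ncard : ℝ) * S := by
      rw [hS]
      exact_mod_cast h1
    have h3 : (A.ncard : ℝ) ≤ N * (N * (1 + Real.log N)) := by
      calc (A.ncard : ℝ) ≤ ((N * ∑ v ∈ Finset.Icc 1 N, N / v : ℕ) : ℝ) := by exact_mod_cast hAc
        _ = N * ((∑ v ∈ Finset.Icc 1 N, N / v : ℕ) : ℝ) := by push_cast; rfl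
        _ ≤ _ := mul_le_mul_of_nonneg_left (D1_sum N) hN0.le
    have h4 : (8 : ℝ) * N ^ 3 ≤ (2 * N + 1) ^ 3 := by
      have : (2 * (N : ℝ)) ^ 3 ≤ (2 * N + 1) ^ 3 :=
        pow_le_pow_left₀ (by positivity) (by linarith) 3
      calc (8 : ℝ) * N ^ 3 = (2 * (N : ℝ)) ^ 3 := by ring
        _ ≤ _ := this
    have hx0 : (0 : ℝ) ≤ x := Nat.cast_nonneg _
    have h5 : (x : ℝ) * (8 * N ^ 3) ≤ N * (N * (1 + Real.log N)) * S :=
      calc (x : ℝ) * (8 * N ^ 3) ≤ x * (2 * N + 1) ^ 3 := mul_le_mul_of_nonneg_left h4 hx0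
        _ ≤ (A.ncard : ℝ) * S := h2
        _ ≤ _ := mul_le_mul_of_nonneg_right h3 hS0
    have h6 : (N : ℝ) ^ 2 * (x * (8 * N)) ≤ N ^ 2 * ((1 + Real.log N) * S) := by
      calc (N : ℝ) ^ 2 * (x * (8 * N)) = x * (8 * N ^ 3) := by ring
        _ ≤ N * (N * (1 + Real.log N)) * S := h5
        _ = _ := by ring
    have h7 : (x : ℝ) * (8 * N) ≤ (1 + Real.log N) * S :=
      le_of_mul_le_mul_left h6 (by positivity)
    rw [div_mul_eq_mul_div, div_mul_eq_mul_div, div_div, le_div_iff₀ (by positivity)]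
    linarith
  have hQ1b : ∀ q, ((Q1 q).ncard : ℝ) ≤ (1 + Real.log N) / 8 / N * S := by
    intro q
    by_cases h : q.1 = q.2.1 ∨ q.2.1 = q.2.2 ∨ q.2.2 = q.1
    · have : (Q1 q) = ∅ := by simp only [Q1, if_pos h]
      rw [this]
      simp only [Set.ncard_empty, Nat.cast_zero]
      positivity
    · have h2 : Q1 q = Sk n N ∩ {B | (B q.1 q.2.1, B q.2.1 q.2.2, B q.2.2 q.1) ∈ Ba N} := by
        simp only [Q1, if_neg h]
      rw [h2]
      exact htri q _ (D1_Ba N).1 (D1_Ba N).2 h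
  have hQ2b : ∀ q, ((Q2 q).ncard : ℝ) ≤ (1 + Real.log N) / 8 / N * S := by
    intro q
    by_cases h : q.1 = q.2.1 ∨ q.2.1 = q.2.2 ∨ q.2.2 = q.1
    · have : (Q2 q) = ∅ := by simp only [Q2, if_pos h]
      rw [this]
      simp only [Set.ncard_empty, Nat.cast_zero]
      positivity
    · have h2 : Q2 q = Sk n N ∩ {B | (B q.1 q.2.1, B q.2.1 q.2.2, B q.2.2 q.1) ∈ Bb N} := by
        simp only [Q2, if_neg h]
      rw [h2]
      exact htri q _ (D1_Bb N).1 (D1_Bb N).2 h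
  have hs1 : ∑ q, ((P q).ncard : ℝ) ≤ (n : ℝ) ^ 2 * (5 / 2 / N * S) := by
    refine (Finset.sum_le_sum fun q _ => hPb q).trans (le_of_eq ?_)
    rw [Finset.sum_const, Finset.card_univ, Fintype.card_prod, Fintype.card_fin, nsmul_eq_mul]
    push_cast
    ring
  have hs2 : ∑ q, ((Q1 q).ncard : ℝ) ≤ (n : ℝ) ^ 3 * ((1 + Real.log N) / 8 / N * S) := by
    refine (Finset.sum_le_sum fun q _ => hQ1b q).trans (le_of_eq ?_)
    rw [Finset.sum_const, Finset.card_univ, Fintype.card_prod, Fintype.card_prod, Fintype.card_fin,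
      nsmul_eq_mul]
    push_cast
    ring
  have hs3 : ∑ q, ((Q2 q).ncard : ℝ) ≤ (n : ℝ) ^ 3 * ((1 + Real.log N) / 8 / N * S) := by
    refine (Finset.sum_le_sum fun q _ => hQ2b q).trans (le_of_eq ?_)
    rw [Finset.sum_const, Finset.card_univ, Fintype.card_prod, Fintype.card_prod, Fintype.card_fin,
      nsmul_eq_mul]
    push_cast
    ring
  have hub' : ((Sk n N \ {B | Expanding B ∧ ∀ i j, i ≠ j → 3 ≤ |B i j|}).ncard : ℝ) ≤
      (∑ q, ((P q).ncard : ℝ)) + ((∑ q, ((Q1 q).ncard : ℝ)) + ∑ q, ((Q2 q).ncard : ℝ)) := by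
    exact_mod_cast hub
  have hn1 : (1 : ℝ) ≤ n := by exact_mod_cast hn
  have hn23 : (n : ℝ) ^ 2 ≤ (n : ℝ) ^ 3 * (1 + Real.log N) := by
    have h1 : (n : ℝ) ^ 2 ≤ (n : ℝ) ^ 3 := pow_le_pow_right₀ hn1 (by norm_num)
    have h2 : 0 ≤ (n : ℝ) ^ 3 * Real.log N := by positivity
    nlinarith
  have hSN : 0 ≤ S / N := by positivity
  calc _ ≤ _ := hub'
    _ ≤ (n : ℝ) ^ 2 * (5 / 2 / N * S) + ((n : ℝ) ^ 3 * ((1 + Real.log N) / 8 / N * S) +
        (n : ℝ) ^ 3 * ((1 + Real.log N) / 8 / N * S)) := add_le_add hs1 (add_le_add hs2 hs3)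
    _ = (5 / 2 * (n : ℝ) ^ 2 + 1 / 4 * ((n : ℝ) ^ 3 * (1 + Real.log N))) * (S / N) := by
        field_simp
        ring
    _ ≤ (3 * ((n : ℝ) ^ 3 * (1 + Real.log N))) * (S / N) := by
        refine mul_le_mul_of_nonneg_right ?_ hSN
        have : 0 ≤ (n : ℝ) ^ 3 * (1 + Real.log N) := by positivity
        linarith
    _ = _ := by
        field_simp

end Pool.Agent.Lib.MP_153a79_co.MG
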