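import Mathlib

/-!
# Maximal green sequences and abundant mutation classes (definitions)

Convention: `0 < B y x` means that there are `B y x` arrows `x → y` (this is the reading of the extended matrix
`[B; I]` in which a green mutation at `k` adds `[B k y]_+ c_k` to the `c`-vector (column) of `y`, i.e. the rule
`c_y += b c_k` for `y → k`). All properties below are invariant under the reversal of all arrows.
-/

set_option autoImplicit false

namespace Pool.Agent.Lib.MP_153a79_co.MG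

/-- Matrix mutation at `k`. -/
def mu {n : ℕ} (M : Matrix (Fin n) (Fin n) ℤ) (k : Fin n) : Matrix (Fin n) (Fin n) ℤ :=
  Matrix.of (fun i j =>
    if i = k ∨ j = k then -M i j
    else M i j + max (M i k) 0 * max (M k j) 0
      - max (-M i k) 0 * max (-M k j) 0)

/-- Mutation at `k` of the extended matrix `[B; C]`. -/
def muF {n : ℕ} (M : Matrix (Fin n ⊕ Fin n) (Fin n) ℤ) (k : Fin n) :
    Matrix (Fin n ⊕ Fin n) (Fin n) ℤ :=
  Matrix.of (fun i j =>
    if i = Sum.inl k ∨ j = k then -M i j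
    else M i j + max (M i k) 0 * max (M (Sum.inl k) j) 0
      - max (-M i k) 0 * max (-M (Sum.inl k) j) 0)

/-- `t` is a maximal green sequence of `B`: every mutation is made at a green vertex (all entries of its
`c`-vector are nonnegative), and at the end all `c`-vectors are nonpositive. -/
def IsMGS {n : ℕ} (B : Matrix (Fin n) (Fin n) ℤ) (t : List (Fin n)) : Prop :=
  (∀ l₁ l₂ : List (Fin n), ∀ k : Fin n, t = l₁ ++ k :: l₂ →
    ∀ i : Fin n, 0 ≤ (l₁.foldl muF (Matrix.fromRows B (1 : Matrix (Fin n) (Fin n) ℤ))) (Sum.inr i) k) ∧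
  ∀ i j : Fin n,
    (t.foldl muF (Matrix.fromRows B (1 : Matrix (Fin n) (Fin n) ℤ))) (Sum.inr i) j ≤ 0

/-- `B'` is obtained from `B` by a sequence of mutations. -/
def Reach {n : ℕ} (B B' : Matrix (Fin n) (Fin n) ℤ) : Prop :=
  ∃ s : List (Fin n), B' = s.foldl mu B

/-- All multiplicities are at least two. -/
def Ab {n : ℕ} (B : Matrix (Fin n) (Fin n) ℤ) : Prop :=
  ∀ i j, i ≠ j → 2 ≤ |B i j|

/-- There are no simple arrows: all nonzero multiplicities are at least two. -/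
def NoS {n : ℕ} (B : Matrix (Fin n) (Fin n) ℤ) : Prop :=
  ∀ i j, B i j ≠ 0 → 2 ≤ |B i j|

/-- Skew symmetry. -/
def Skew {n : ℕ} (B : Matrix (Fin n) (Fin n) ℤ) : Prop :=
  ∀ i j, B i j = -B j i

/-- All multiplicities are at least two and every oriented triangle with multiplicities `a ≤ b ≤ c` satisfies
`c ≤ (a - 1) b`. -/
def Expanding {n : ℕ} (B : Matrix (Fin n) (Fin n) ℤ) : Prop :=
  Ab B ∧ ∀ i j k, 0 < B i j → 0 < B j k → 0 < B k i →
    B i j ≤ (B j k - 1) * B k i ∧ B i j ≤ (B k i - 1) * B j k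

/-- `B` contains an oriented triangle. -/
def Tri {n : ℕ} (B : Matrix (Fin n) (Fin n) ℤ) : Prop :=
  ∃ i j k, 0 < B i j ∧ 0 < B j k ∧ 0 < B k i

/-- The vertex `l` is ascending: for every oriented triangle `i → l → j → i`. -/
def Asc {n : ℕ} (B : Matrix (Fin n) (Fin n) ℤ) (l : Fin n) : Prop :=
  ∀ i j, 0 < B l i → 0 < B j l → 0 < B i j → max (B l i) (B j l) ≤ B l i * B j l - B i j

/-- The vertex `r` is dominated: `r → i` and `j → r` imply `i → j` with large multiplicity. -/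
def Dom {n : ℕ} (B : Matrix (Fin n) (Fin n) ℤ) (r : Fin n) : Prop :=
  ∀ i j, 0 < B i r → 0 < B r j → max (B i r) (B r j) ≤ B j i

/-- The evolution of the `c`-vectors (`C y` is the `c`-vector of `y`) in a green mutation at `k`. -/
def nu {n : ℕ} (B : Matrix (Fin n) (Fin n) ℤ) (C : Fin n → Fin n → ℤ) (k : Fin n) :
    Fin n → Fin n → ℤ :=
  fun y i => if y = k then - C k i else C y i + max (B k y) 0 * C k i

/-- All entries are nonnegative. -/
def Gr {n : ℕ} (c : Fin n → ℤ) : Prop := ∀ i, 0 ≤ c i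

/-- All entries are nonpositive. -/
def Rd {n : ℕ} (c : Fin n → ℤ) : Prop := ∀ i, c i ≤ 0

/-- The marked sets after a mutation at `z`. -/
def Sn {n : ℕ} (B : Matrix (Fin n) (Fin n) ℤ) (S : Fin n → Fin n → Prop) (z : Fin n) (x w : Fin n) : Prop :=
  (x = z ∧ 0 < B z w) ∨ (x ≠ z ∧ (S x w ∨ (S x z ∧ 0 < B z w)))

/-- The order of the last mutations after a mutation at `z`. -/
def Ln {n : ℕ} (L : Fin n → Fin n → Prop) (z : Fin n) (x w : Fin n) : Prop :=
  x ≠ z ∧ (w = z ∨ L x w)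

/-- The invariants of a green sequence through quivers without simple arrows. `S x w`: `w` is marked for the
red vertex `x`. `L x w`: the last mutation of `w` was after the last mutation of `x`. -/
structure Inv {n : ℕ} (B : Matrix (Fin n) (Fin n) ℤ) (C : Fin n → Fin n → ℤ) (S L : Fin n → Fin n → Prop) :
    Prop where
  sgn : ∀ y, (Gr (C y) ∨ Rd (C y)) ∧ ∃ i, C y i ≠ 0
  irr : ∀ x, ¬ L x x
  i1g : ∀ x w, Rd (C x) → S x w → Gr (C w) → ∀ i, 0 ≤ C x i + C w i
  i1r : ∀ x w, Rd (C x) → S x w → Rd (C w) → ∀ i, C w i ≤ C x i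
  i2 : ∀ x w, Rd (C x) → ¬ S x w → B x w < 0 → Rd (C w) ∧ L x w
  i2' : ∀ x w, Rd (C x) → ¬ S x w → Rd (C w) → L x w → B x w ≤ 0
  i3 : ∀ x w w', Rd (C x) → ¬ S x w → ¬ S x w' → Rd (C w) → L x w → ¬ (Rd (C w') ∧ L x w') → w' ≠ x →
    0 < B w' w → 0 ≤ B x w + B x w'
  i4 : ∀ x w l, Rd (C x) → Rd (C w) → L x w → ¬ S x w → ¬ S x l → S w l → l ≠ x →
    |B x w| ≤ |B x l|

/-- There is an oriented cycle: a nonempty set of vertices without a source. -/
def Cyc {n : ℕ} (B : Matrix (Fin n) (Fin n) ℤ) : Prop :=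
  ∃ U : Set (Fin n), U.Nonempty ∧ ∀ x ∈ U, ∃ y ∈ U, 0 < B x y

/-- There is an arrow from a red to a green vertex, or an oriented cycle of green vertices. -/
def PT {n : ℕ} (B : Matrix (Fin n) (Fin n) ℤ) (C : Fin n → Fin n → ℤ) : Prop :=
  (∃ x y, Rd (C x) ∧ Gr (C y) ∧ 0 < B y x) ∨
  (∃ U : Set (Fin n), U.Nonempty ∧ (∀ x ∈ U, ∃ y ∈ U, 0 < B x y) ∧ ∀ x ∈ U, Gr (C x))

/-- `Q` is reached from `B` by the reduced word `w` (the last letter is the head). -/
inductive RW {n : ℕ} (B : Matrix (Fin n) (Fin n) ℤ) : List (Fin n) → Matrix (Fin n) (Fin n) ℤ → Prop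
  | nil : RW B [] B
  | cons {w : List (Fin n)} {Q : Matrix (Fin n) (Fin n) ℤ} {k : Fin n} :
      RW B w Q → w.head? ≠ some k → RW B (k :: w) (mu Q k)

/-- Reversal of all the arrows between `S` and its complement. -/
def flip {n : ℕ} (B : Matrix (Fin n) (Fin n) ℤ) (S : Finset (Fin n)) : Matrix (Fin n) (Fin n) ℤ :=
  Matrix.of (fun i j => if (i ∈ S ↔ j ∈ S) then B i j else -B i j)

/-- `S` is closed under predecessors. -/
def Closed {n : ℕ} (B : Matrix (Fin n) (Fin n) ℤ) (S : Finset (Fin n)) : Prop :=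
  ∀ x ∈ S, ∀ y, 0 < B x y → y ∈ S

/-- The skew-symmetric matrices with entries of absolute value at most `N`. -/
def Sk (n N : ℕ) : Set (Matrix (Fin n) (Fin n) ℤ) :=
  {B | B.transpose = -B ∧ ∀ i j, |B i j| ≤ N}

end Pool.Agent.Lib.MP_153a79_co.MG
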