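import Pool.Agent.Lib.MP_153a79_co.MG.A1

/-!
# Generalised forks

Convention as in `Defs.lean`: `0 < B y x` means that there are `B y x` arrows `x → y`.

`GF B D`: `D` is a set of pairwise non-adjacent vertices (points of return), each of them is dominated
(`i → k → j` implies `j → i` with a multiplicity larger than the two others), there is no oriented cycle outside
`D`, and there are no simple arrows.
-/

set_option autoImplicit false

namespace Pool.Agent.Lib.MP_153a79_co.MG

variable {n : ℕ} {B : Matrix (Fin n) (Fin n) ℤ}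

/-- Generalised forks with the set `D` of points of return. -/
structure GF (B : Matrix (Fin n) (Fin n) ℤ) (D : Set (Fin n)) : Prop where
  sk : Skew B
  ns : NoS B
  a0 : ∀ k ∈ D, (∃ i, 0 < B k i) ∧ ∃ j, 0 < B j k
  a1 : ∀ k ∈ D, ∀ k' ∈ D, B k k' = 0
  a : ∀ k ∈ D, ∀ i j, 0 < B k i → 0 < B j k → max (B k i) (B j k) < B i j
  b : ∀ U : Set (Fin n), U.Nonempty → (∀ x ∈ U, x ∉ D) → ∃ x ∈ U, ∀ y ∈ U, B x y ≤ 0

/-- `l` is a source or a sink. -/
def SSv (B : Matrix (Fin n) (Fin n) ℤ) (l : Fin n) : Prop := (∀ i, B l i ≤ 0) ∨ ∀ j, B j l ≤ 0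

/-- The points of return after a mutation at `l`. -/
def Dn (B : Matrix (Fin n) (Fin n) ℤ) (D : Set (Fin n)) (l : Fin n) : Set (Fin n) :=
  {k | k = l ∨ (k ∈ D ∧ B k l = 0)}

theorem mu_row0 {l k : Fin n} (hk : k ≠ l) (h0 : B k l = 0) (j : Fin n) : mu B l k j = B k j := by
  by_cases hj : j = l
  · rw [hj, mu_right, h0, neg_zero]
  · rw [mu_of_ne B hk hj, h0]
    simp

theorem mu_col0 (h : Skew B) {l k : Fin n} (hk : k ≠ l) (h0 : B k l = 0) (j : Fin n) : mu B l j k = B j k := by
  rw [mu_skew h l j k, mu_row0 hk h0, h j k]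

theorem mu_unch (B : Matrix (Fin n) (Fin n) ℤ) {l i j : Fin n} (hi : i ≠ l) (hj : j ≠ l)
    (h1 : ¬ (0 < B i l ∧ 0 < B l j)) (h2 : ¬ (B i l < 0 ∧ B l j < 0)) : mu B l i j = B i j := by
  rw [mu_of_ne B hi hj]
  have e1 : max (B i l) 0 * max (B l j) 0 = 0 := by
    by_cases h : 0 < B i l
    · have : B l j ≤ 0 := by
        by_contra hc
        exact h1 ⟨h, by omega⟩
      rw [max_eq_right this, mul_zero]
    · rw [max_eq_right (show B i l ≤ 0 by omega), zero_mul]
  have e2 : max (-B i l) 0 * max (-B l j) 0 = 0 := by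
    by_cases h : B i l < 0
    · have : -B l j ≤ 0 := by
        by_contra hc
        exact h2 ⟨h, by omega⟩
      rw [max_eq_right this, mul_zero]
    · rw [max_eq_right (show -B i l ≤ 0 by omega), zero_mul]
  rw [e1, e2]
  ring

/-- If there is no arrow `l → i` or no arrow `j → l`, the number of arrows `j → i` does not grow. -/
theorem mu_le (B : Matrix (Fin n) (Fin n) ℤ) {l i j : Fin n} (hi : i ≠ l) (hj : j ≠ l)
    (h1 : B i l ≤ 0 ∨ B l j ≤ 0) : mu B l i j ≤ B i j := by
  rw [mu_of_ne B hi hj]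
  have e1 : max (B i l) 0 * max (B l j) 0 = 0 := by
    rcases h1 with h | h
    · rw [max_eq_right h, zero_mul]
    · rw [max_eq_right h, mul_zero]
  have e2 : 0 ≤ max (-B i l) 0 * max (-B l j) 0 := mul_nonneg (le_max_right _ _) (le_max_right _ _)
  rw [e1]
  omega

/-- `w → l → x` with `l` outside `D`. -/
theorem GF.pos {D : Set (Fin n)} (hG : GF B D) {l x w : Fin n} (hl : l ∉ D) (hw : 0 < B l w) (hx : 0 < B x l) :
    max (B l w) (B x l) < mu B l x w := by
  have h := hG.sk
  rw [mu_thru h hw hx]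
  have h1 := hG.ns.two hw
  have h2 := hG.ns.two hx
  by_cases h3 : 0 ≤ B x w
  · rcases max_choice (B l w) (B x l) with h4 | h4 <;> rw [h4] <;> nlinarith
  · have h4 : 0 < B w x := by rw [h w x]; omega
    have h5 : w ∈ D ∨ x ∈ D := by
      by_contra hc
      push Not at hc
      obtain ⟨z, hz, hz'⟩ := hG.b {w, l, x} ⟨w, by simp⟩ (by
        rintro y (rfl | rfl | rfl)
        exacts [hc.1, hl, hc.2])
      rcases hz with rfl | rfl | rfl
      · have := hz' x (by simp); omega
      · have := hz' w (by simp); omega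
      · have := hz' l (by simp); omega
    rcases h5 with h5 | h5
    · have h6 := hG.a w h5 x l h4 hw
      rw [max_lt_iff] at h6
      have h7 : B x w = -B w x := h x w
      rw [max_eq_right h6.2.le, h7]
      nlinarith
    · have h6 := hG.a x h5 l w hx h4
      rw [max_lt_iff] at h6
      have h7 : B x w = -B w x := h x w
      rw [max_eq_left h6.1.le, h7]
      nlinarith

theorem not_SSv {l : Fin n} (hl : ¬ SSv B l) : (∃ i, 0 < B l i) ∧ ∃ j, 0 < B j l := by
  unfold SSv at hl
  push Not at hl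
  exact hl

/-- Mutation at a vertex `l` outside `D` which is neither a sink nor a source. -/
theorem GF.step {D : Set (Fin n)} (hG : GF B D) {l : Fin n} (hl : l ∉ D) (hs : ¬ SSv B l) :
    GF (mu B l) (Dn B D l) := by
  have h := hG.sk
  obtain ⟨⟨i0, hi0⟩, ⟨j0, hj0⟩⟩ := not_SSv hs
  refine ⟨mu_skew h l, ?_, ?_, ?_, ?_, ?_⟩
  · intro i j hij
    by_cases hi : i = l
    · subst hi
      rw [mu_left] at hij ⊢
      rw [abs_neg]
      exact hG.ns _ _ (by simpa using hij)
    by_cases hj : j = l
    · subst hj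
      rw [mu_right] at hij ⊢
      rw [abs_neg]
      exact hG.ns _ _ (by simpa using hij)
    by_cases h1 : 0 < B i l ∧ 0 < B l j
    · have h2 := hG.pos hl h1.2 h1.1
      rw [max_lt_iff] at h2
      have h3 := hG.ns.two h1.1
      rw [abs_of_pos (by omega)]
      omega
    by_cases h2 : B i l < 0 ∧ B l j < 0
    · have h3 : 0 < B l i := by rw [h l i]; omega
      have h4 : 0 < B j l := by rw [h j l]; omega
      have h5 := hG.pos hl h3 h4
      rw [max_lt_iff] at h5
      have h6 := hG.ns.two h4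
      rw [mu_skew h l i j, abs_neg, abs_of_pos (by omega)]
      omega
    rw [mu_unch B hi hj h1 h2] at hij ⊢
    exact hG.ns _ _ hij
  · rintro k (rfl | ⟨hk, hk0⟩)
    · refine ⟨⟨j0, ?_⟩, ⟨i0, ?_⟩⟩
      · rw [mu_left, h k j0]; omega
      · rw [mu_right, h i0 k]; omega
    · have hkl : k ≠ l := fun e => hl (e ▸ hk)
      obtain ⟨⟨i, hi⟩, ⟨j, hj⟩⟩ := hG.a0 k hk
      exact ⟨⟨i, by rw [mu_row0 hkl hk0]; exact hi⟩, ⟨j, by rw [mu_col0 h hkl hk0]; exact hj⟩⟩
  · rintro k (rfl | ⟨hk, hk0⟩) k' hk'
    · rcases hk' with rfl | ⟨hk', hk0'⟩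
      · rw [mu_left, h.diag, neg_zero]
      · rw [mu_left, h k k', hk0']; simp
    · have hkl : k ≠ l := fun e => hl (e ▸ hk)
      rw [mu_row0 hkl hk0]
      rcases hk' with rfl | ⟨hk', hk0'⟩
      · exact hk0
      · exact hG.a1 k hk k' hk'
  · rintro k (rfl | ⟨hk, hk0⟩) i j hi hj
    · rw [mu_left] at hi ⊢
      rw [mu_right] at hj ⊢
      have h1 : 0 < B i k := by rw [h i k]; omega
      have h2 : 0 < B k j := by rw [h k j]; omega
      have h3 := hG.pos hl h2 h1
      rw [← h i k, ← h k j, max_comm]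
      exact h3
    · have hkl : k ≠ l := fun e => hl (e ▸ hk)
      rw [mu_row0 hkl hk0] at hi ⊢
      rw [mu_col0 h hkl hk0] at hj ⊢
      have h1 := hG.a k hk i j hi hj
      have hil : i ≠ l := by rintro rfl; omega
      have hjl : j ≠ l := by rintro rfl; rw [h j k] at hj; omega
      have hiD : i ∉ D := fun hD => by have := hG.a1 k hk i hD; omega
      have hjD : j ∉ D := fun hD => by have := hG.a1 j hD k hk; omega
      have hij : 0 < B i j := by
        rw [max_lt_iff] at h1
        omega
      refine lt_of_lt_of_le h1 ?_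
      have h2 : mu B l j i ≤ B j i := by
        refine mu_le B hjl hil ?_
        by_contra hc
        push Not at hc
        obtain ⟨z, hz, hz'⟩ := hG.b {i, l, j} ⟨i, by simp⟩ (by
          rintro y (rfl | rfl | rfl)
          exacts [hiD, hl, hjD])
        rcases hz with rfl | rfl | rfl
        · have := hz' j (by simp); omega
        · have := hz' i (by simp); omega
        · have := hz' l (by simp); omega
      rw [mu_skew h l i j, h i j]
      omega
  · intro U hU hUD
    have hlU : l ∉ U := fun hc => hUD l hc (Or.inl rfl)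
    have hne : ∀ x ∈ U, x ≠ l := fun x hx e => hlU (e ▸ hx)
    have hDl : ∀ x ∈ U, x ∈ D → B x l ≠ 0 := fun x hx hxD h0 => hUD x hx (Or.inr ⟨hxD, h0⟩)
    by_cases hc1 : ∃ x ∈ U, x ∈ D ∧ 0 < B l x
    · obtain ⟨x, hx, hxD, hxl⟩ := hc1
      refine ⟨x, hx, fun y hy => ?_⟩
      by_cases hxy : 0 < B x y
      · have h1 := hG.a x hxD y l hxy hxl
        rw [max_lt_iff] at h1
        have h2 := hG.pos hl hxl (show 0 < B y l by omega)
        rw [max_lt_iff] at h2
        rw [mu_skew h l x y]
        omega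
      · have h1 := mu_le B (hne x hx) (hne y hy) (Or.inl (show B x l ≤ 0 by rw [h x l]; omega))
        omega
    · have hDneg : ∀ y ∈ U, y ∈ D → B l y < 0 := by
        intro y hy hyD
        have h1 := hDl y hy hyD
        have h2 : ¬ 0 < B l y := fun hc => hc1 ⟨y, hy, hyD, hc⟩
        have h3 := h l y
        omega
      by_cases hU1 : ∃ x ∈ U, x ∉ D
      · obtain ⟨x1, hx1, hx1D⟩ := hU1
        obtain ⟨m, hm, hm'⟩ := hG.b (insert l {x | x ∈ U ∧ x ∉ D}) ⟨l, by simp⟩ (by
          rintro y (rfl | hy)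
          exacts [hl, hy.2])
        rcases hm with rfl | hm
        · obtain ⟨m', hm1, hm2⟩ := hG.b {x | x ∈ U ∧ x ∉ D} ⟨x1, hx1, hx1D⟩ (fun y hy => hy.2)
          refine ⟨m', hm1.1, fun y hy => ?_⟩
          have hly : B m y ≤ 0 := by
            by_cases hyD : y ∈ D
            · exact (hDneg y hy hyD).le
            · exact hm' y (Or.inr ⟨hy, hyD⟩)
          have h1 := mu_le B (hne m' hm1.1) (hne y hy) (Or.inr hly)
          have h2 : B m' y ≤ 0 := by
            by_cases hyD : y ∈ D
            · by_contra hc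
              have h3 := hG.a y hyD m m' (by rw [h y m]; have := hDneg y hy hyD; omega) (by omega)
              rw [max_lt_iff] at h3
              have h4 := hm' m' (Or.inr ⟨hm1.1, hm1.2⟩)
              omega
            · exact hm2 y ⟨hy, hyD⟩
          omega
        · refine ⟨m, hm.1, fun y hy => ?_⟩
          have hml : B m l ≤ 0 := hm' l (Or.inl rfl)
          have h1 := mu_le B (hne m hm.1) (hne y hy) (Or.inl hml)
          by_cases hyD : y ∈ D
          · by_cases hmy : 0 < B m y
            · have h3 := hG.a y hyD l m (by rw [h y l]; have := hDneg y hy hyD; omega) hmy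
              rw [max_lt_iff] at h3
              have h4 := hG.pos hl (show 0 < B l m by omega) (show 0 < B y l by
                rw [h y l]; have := hDneg y hy hyD; omega)
              rw [max_lt_iff] at h4
              rw [mu_skew h l m y]
              omega
            · omega
          · have := hm' y (Or.inr ⟨hy, hyD⟩)
            omega
      · push Not at hU1
        obtain ⟨x0, hx0⟩ := hU
        refine ⟨x0, hx0, fun y hy => ?_⟩
        have h1 := mu_le B (hne x0 hx0) (hne y hy) (Or.inr (hDneg y hy (hU1 y hy)).le)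
        rw [hG.a1 x0 (hU1 x0 hx0) y (hU1 y hy)] at h1
        exact h1

/-- A sink or source is not adjacent to `D`. -/
theorem GF.ss_out {D : Set (Fin n)} (hG : GF B D) {l : Fin n} (hs : SSv B l) : l ∉ D ∧ ∀ k ∈ D, B k l = 0 := by
  have h := hG.sk
  constructor
  · intro hl
    obtain ⟨⟨i, hi⟩, ⟨j, hj⟩⟩ := hG.a0 l hl
    rcases hs with hs | hs
    · have := hs i; omega
    · have := hs j; omega
  · intro k hk
    obtain ⟨⟨i, hi⟩, ⟨j, hj⟩⟩ := hG.a0 k hk
    by_contra hne
    rcases lt_or_gt_of_ne hne with h1 | h1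
    · have hlk : 0 < B l k := by rw [h l k]; omega
      rcases hs with hs | hs
      · have := hs k; omega
      · have h2 := hG.a k hk i l hi hlk
        rw [max_lt_iff] at h2
        have := hs i; omega
    · rcases hs with hs | hs
      · have h2 := hG.a k hk l j h1 hj
        rw [max_lt_iff] at h2
        have := hs j; omega
      · have := hs k; omega

theorem mu_ss (h : Skew B) {l i j : Fin n} (hs : SSv B l) (hi : i ≠ l) (hj : j ≠ l) : mu B l i j = B i j := by
  refine mu_unch B hi hj ?_ ?_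
  · rintro ⟨h1, h2⟩
    rcases hs with hs | hs
    · have := hs j; omega
    · have := hs i; omega
  · rintro ⟨h1, h2⟩
    rcases hs with hs | hs
    · have := hs i; rw [h l i] at this; omega
    · have := hs j; rw [h j l] at this; omega

/-- Mutation at a sink or source. -/
theorem GF.ss {D : Set (Fin n)} (hG : GF B D) {l : Fin n} (hs : SSv B l) : GF (mu B l) D := by
  have h := hG.sk
  obtain ⟨hl, hD⟩ := hG.ss_out hs
  have hne : ∀ k ∈ D, k ≠ l := fun k hk e => hl (e ▸ hk)
  refine ⟨mu_skew h l, ?_, ?_, ?_, ?_, ?_⟩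
  · intro i j hij
    by_cases hi : i = l
    · subst hi
      rw [mu_left] at hij ⊢
      rw [abs_neg]
      exact hG.ns _ _ (by simpa using hij)
    by_cases hj : j = l
    · subst hj
      rw [mu_right] at hij ⊢
      rw [abs_neg]
      exact hG.ns _ _ (by simpa using hij)
    rw [mu_ss h hs hi hj] at hij ⊢
    exact hG.ns _ _ hij
  · intro k hk
    obtain ⟨⟨i, hi⟩, ⟨j, hj⟩⟩ := hG.a0 k hk
    exact ⟨⟨i, by rw [mu_row0 (hne k hk) (hD k hk)]; exact hi⟩,
      ⟨j, by rw [mu_col0 h (hne k hk) (hD k hk)]; exact hj⟩⟩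
  · intro k hk k' hk'
    rw [mu_row0 (hne k hk) (hD k hk)]
    exact hG.a1 k hk k' hk'
  · intro k hk i j hi hj
    rw [mu_row0 (hne k hk) (hD k hk)] at hi ⊢
    rw [mu_col0 h (hne k hk) (hD k hk)] at hj ⊢
    have h0 := hD k hk
    have hil : i ≠ l := by rintro rfl; omega
    have hjl : j ≠ l := by rintro rfl; rw [h j k] at hj; omega
    rw [mu_ss h hs hil hjl]
    exact hG.a k hk i j hi hj
  · intro U hU hUD
    have hs0 := hs
    by_cases hlU : l ∈ U
    · rcases hs with hs' | hs'
      · by_cases hU2 : ∃ x ∈ U, x ≠ l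
        · obtain ⟨x, hx, hxl⟩ := hU2
          obtain ⟨m, hm, hm'⟩ := hG.b {x | x ∈ U ∧ x ≠ l} ⟨x, hx, hxl⟩ (fun y hy => hUD y hy.1)
          refine ⟨m, hm.1, fun y hy => ?_⟩
          by_cases hyl : y = l
          · rw [hyl, mu_right, ← h l m]
            exact hs' m
          · rw [mu_ss h hs0 hm.2 hyl]
            exact hm' y ⟨hy, hyl⟩
        · push Not at hU2
          refine ⟨l, hlU, fun y hy => ?_⟩
          rw [hU2 y hy, mu_left, h.diag, neg_zero]
      · refine ⟨l, hlU, fun y hy => ?_⟩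
        rw [mu_left, ← h y l]
        exact hs' y
    · obtain ⟨m, hm, hm'⟩ := hG.b U hU hUD
      refine ⟨m, hm, fun y hy => ?_⟩
      rw [mu_ss h hs (fun e => hlU (e ▸ hm)) (fun e => hlU (e ▸ hy))]
      exact hm' y hy

end Pool.Agent.Lib.MP_153a79_co.MG
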