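import Pool.Agent.Lib.MP_153a79_co.MG.F1

/-!
# The mutation class of an acyclic quiver without simple arrows

`SS B0 B`: `B` is obtained from `B0` by mutations at sinks and sources. `Rr B0 B D m`: `B` is obtained from `B0` by `m`
mutations outside the sets of points of return, after some mutations at sinks and sources.
-/

set_option autoImplicit false

namespace Pool.Agent.Lib.MP_153a79_co.MG

variable {n : ℕ} {B : Matrix (Fin n) (Fin n) ℤ}

/-- `B` is obtained from `B0` by mutations at sinks and sources. -/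
inductive SS (B0 : Matrix (Fin n) (Fin n) ℤ) : Matrix (Fin n) (Fin n) ℤ → Prop
  | refl : SS B0 B0
  | step {B : Matrix (Fin n) (Fin n) ℤ} {l : Fin n} : SS B0 B → SSv B l → SS B0 (mu B l)

/-- The generalised forks which are reached from `B0`. -/
inductive Rr (B0 : Matrix (Fin n) (Fin n) ℤ) : Matrix (Fin n) (Fin n) ℤ → Set (Fin n) → ℕ → Prop
  | base {B : Matrix (Fin n) (Fin n) ℤ} : SS B0 B → Rr B0 B ∅ 0
  | step {B : Matrix (Fin n) (Fin n) ℤ} {D : Set (Fin n)} {m : ℕ} {l : Fin n} :
      Rr B0 B D m → l ∉ D → ¬ SSv B l → Rr B0 (mu B l) (Dn B D l) (m + 1)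
  | ss {B : Matrix (Fin n) (Fin n) ℤ} {D : Set (Fin n)} {m : ℕ} {l : Fin n} :
      Rr B0 B D m → SSv B l → Rr B0 (mu B l) D (m + 1)

theorem GF_base {B0 : Matrix (Fin n) (Fin n) ℤ} (h : Skew B0) (hn : NoS B0) (hc : ¬ Cyc B0) : GF B0 ∅ := by
  refine ⟨h, hn, ?_, ?_, ?_, ?_⟩
  · intro k hk
    exact hk.elim
  · intro k hk
    exact hk.elim
  · intro k hk
    exact hk.elim
  · intro U hU _
    by_contra hcon
    push Not at hcon
    exact hc ⟨U, hU, hcon⟩

theorem SS.gf {B0 : Matrix (Fin n) (Fin n) ℤ} (h0 : GF B0 ∅) (h : SS B0 B) : GF B ∅ := by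
  induction h with
  | refl => exact h0
  | step _ hs ih => exact ih.ss hs

theorem Rr.gf {B0 : Matrix (Fin n) (Fin n) ℤ} (h0 : GF B0 ∅) {D : Set (Fin n)} {m : ℕ} (h : Rr B0 B D m) :
    GF B D := by
  induction h with
  | base hs => exact hs.gf h0
  | step _ hl hs ih => exact ih.step hl hs
  | ss _ hs ih => exact ih.ss hs

theorem Rr.empty {B0 : Matrix (Fin n) (Fin n) ℤ} {D : Set (Fin n)} {m : ℕ} (h : Rr B0 B D m) (hD : D = ∅) :
    SS B0 B := by
  induction h with
  | base hs => exact hs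
  | @step B D m l _ hl hs ih =>
    have : l ∈ Dn B D l := Or.inl rfl
    rw [hD] at this
    exact this.elim
  | ss _ hs ih => exact (ih hD).step hs

/-- Mutations at non-adjacent vertices commute. -/
theorem mu_comm (h : Skew B) {l m : Fin n} (hlm : l ≠ m) (h0 : B l m = 0) : mu (mu B m) l = mu (mu B l) m := by
  have h0' : B m l = 0 := by rw [h m l, h0, neg_zero]
  have e1 : ∀ j, mu B m l j = B l j := mu_row0 hlm h0
  have e2 : ∀ j, mu B m j l = B j l := mu_col0 h hlm h0
  have e3 : ∀ j, mu B l m j = B m j := mu_row0 hlm.symm h0'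
  have e4 : ∀ j, mu B l j m = B j m := mu_col0 h hlm.symm h0'
  ext i j
  by_cases hil : i = l
  · subst hil
    rw [mu_left, e1, mu_row0 (B := mu B i) hlm (by rw [e4, h0]), mu_left]
  by_cases him : i = m
  · subst him
    rw [mu_left, e3, mu_row0 (B := mu B i) hlm.symm (by rw [e2, h0']), mu_left]
  by_cases hjl : j = l
  · subst hjl
    rw [mu_right, e2, mu_of_ne (mu B j) him hlm, e3, h0', e4, mu_right]
    simp
  by_cases hjm : j = m
  · subst hjm
    rw [mu_right, e4, mu_of_ne (mu B j) hil (Ne.symm hlm), e1, h0, e2, mu_right]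
    simp
  rw [mu_of_ne (mu B m) hil hjl, mu_of_ne (mu B l) him hjm, e1, e2, e3, e4, mu_of_ne B him hjm,
    mu_of_ne B hil hjl]
  ring

theorem SSv_mu (h : Skew B) {l m : Fin n} (hlm : m ≠ l) (h0 : B m l = 0) : SSv (mu B l) m ↔ SSv B m := by
  unfold SSv
  simp only [mu_row0 hlm h0, mu_col0 h hlm h0]

/-- Going back. -/
theorem Rr.back {B0 : Matrix (Fin n) (Fin n) ℤ} (h0 : GF B0 ∅) : ∀ (m : ℕ) (B : Matrix (Fin n) (Fin n) ℤ)
    (D : Set (Fin n)) (l : Fin n), Rr B0 B D m → l ∈ D → ∃ D' m', m' < m ∧ Rr B0 (mu B l) D' m' := by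
  intro m
  induction m using Nat.strong_induction_on with
  | _ m ih =>
    intro B D l hR hl
    cases hR with
    | base hs => exact hl.elim
    | @step B1 D1 m1 k hR1 hk hs =>
      have hsk : Skew B1 := (hR1.gf h0).sk
      by_cases hlk : l = k
      · rw [hlk, mu_mu]
        exact ⟨D1, m1, Nat.lt_succ_self _, hR1⟩
      · rcases hl with hl | ⟨hl, hl0⟩
        · exact (hlk hl).elim
        · obtain ⟨D', m', hm', hR'⟩ := ih m1 (Nat.lt_succ_self _) B1 D1 l hR1 hl
          rw [mu_comm hsk hlk hl0]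
          have hkl0 : B1 k l = 0 := by rw [hsk k l, hl0, neg_zero]
          by_cases hkD : k ∈ D'
          · obtain ⟨D2, m2, hm2, hR2⟩ := ih m' (by omega) _ D' k hR' hkD
            exact ⟨D2, m2, by omega, hR2⟩
          · refine ⟨Dn (mu B1 l) D' k, m' + 1, by omega, hR'.step hkD ?_⟩
            rw [SSv_mu hsk (Ne.symm hlk) hkl0]
            exact hs
    | @ss B1 _ m1 k hR1 hs =>
      have hG := hR1.gf h0
      obtain ⟨hkD, hk0⟩ := hG.ss_out hs
      have hlk : l ≠ k := fun e => hkD (e ▸ hl)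
      have hl0 := hk0 l hl
      obtain ⟨D', m', hm', hR'⟩ := ih m1 (Nat.lt_succ_self _) B1 D l hR1 hl
      rw [mu_comm hG.sk hlk hl0]
      have hkl0 : B1 k l = 0 := by rw [hG.sk k l, hl0, neg_zero]
      refine ⟨D', m' + 1, by omega, hR'.ss ?_⟩
      rw [SSv_mu hG.sk (Ne.symm hlk) hkl0]
      exact hs

theorem Rr.all {B0 : Matrix (Fin n) (Fin n) ℤ} (h0 : GF B0 ∅) {B : Matrix (Fin n) (Fin n) ℤ} (h : Reach B0 B) :
    ∃ D m, Rr B0 B D m := by
  obtain ⟨s, rfl⟩ := h
  induction s using List.reverseRecOn with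
  | nil => exact ⟨∅, 0, Rr.base SS.refl⟩
  | append_singleton s k ih =>
    rw [List.foldl_append, List.foldl_cons, List.foldl_nil]
    obtain ⟨D, m, hR⟩ := ih
    by_cases hk : k ∈ D
    · obtain ⟨D', m', _, hR'⟩ := Rr.back h0 m _ D k hR hk
      exact ⟨D', m', hR'⟩
    · by_cases hs : SSv (s.foldl mu B0) k
      · exact ⟨D, m + 1, hR.ss hs⟩
      · exact ⟨_, m + 1, hR.step hk hs⟩

/-- In the mutation class of an acyclic quiver without simple arrows there are no simple arrows, and every quiver is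
obtained by mutations at sinks and sources or contains an oriented triangle. -/
theorem acyclic_class {B0 : Matrix (Fin n) (Fin n) ℤ} (h : Skew B0) (hn : NoS B0) (hc : ¬ Cyc B0)
    {B : Matrix (Fin n) (Fin n) ℤ} (hr : Reach B0 B) : NoS B ∧ (SS B0 B ∨ Tri B) := by
  have h0 := GF_base h hn hc
  obtain ⟨D, m, hR⟩ := Rr.all h0 hr
  have hG := hR.gf h0
  refine ⟨hG.ns, ?_⟩
  by_cases hD : D = ∅
  · exact Or.inl (hR.empty hD)
  · obtain ⟨k, hk⟩ := Set.nonempty_iff_ne_empty.2 hD
    obtain ⟨⟨i, hi⟩, ⟨j, hj⟩⟩ := hG.a0 k hk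
    have h1 := hG.a k hk i j hi hj
    rw [max_lt_iff] at h1
    exact Or.inr ⟨i, j, k, by omega, hj, hi⟩

theorem SS.abs {B0 : Matrix (Fin n) (Fin n) ℤ} (h : Skew B0) (hs : SS B0 B) :
    Skew B ∧ ∀ i j, |B i j| = |B0 i j| := by
  induction hs with
  | refl => exact ⟨h, fun _ _ => rfl⟩
  | @step B l _ hl ih =>
    refine ⟨mu_skew ih.1 l, fun i j => ?_⟩
    by_cases hi : i = l
    · rw [hi, mu_left, abs_neg, ih.2]
    by_cases hj : j = l
    · rw [hj, mu_right, abs_neg, ih.2]
    rw [mu_ss ih.1 hl hi hj, ih.2]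

theorem SS.finite {B0 : Matrix (Fin n) (Fin n) ℤ} (h : Skew B0) : {B | SS B0 B}.Finite := by
  classical
  have h1 : (Set.univ.pi fun i : Fin n => Set.univ.pi fun j : Fin n =>
      ({B0 i j, -B0 i j} : Set ℤ)).Finite :=
    Set.Finite.pi fun i => Set.Finite.pi fun j => Set.toFinite _
  refine h1.subset ?_
  intro B hB
  have h2 := (SS.abs h hB).2
  intro i _ j _
  rcases abs_eq_abs.1 (h2 i j) with h3 | h3
  · exact Or.inl h3
  · exact Or.inr h3

theorem Reach.symm' {B B' : Matrix (Fin n) (Fin n) ℤ} (h : Reach B B') : Reach B' B := by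
  obtain ⟨s, rfl⟩ := h
  refine ⟨s.reverse, ?_⟩
  induction s using List.reverseRecOn with
  | nil => rfl
  | append_singleton s k ih =>
    rw [List.foldl_append, List.foldl_cons, List.foldl_nil, List.reverse_append, List.reverse_singleton,
      List.singleton_append, List.foldl_cons, mu_mu]
    exact ih

theorem Reach.trans' {B B' B'' : Matrix (Fin n) (Fin n) ℤ} (h : Reach B B') (h' : Reach B' B'') : Reach B B'' := by
  obtain ⟨s, rfl⟩ := h
  obtain ⟨t, rfl⟩ := h'
  exact ⟨s ++ t, by rw [List.foldl_append]⟩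

/-- In a class without simple arrows two acyclic members are related by mutations at sinks and sources. -/
theorem acyclic_members (h : Skew B) (hab : ∀ B', Reach B B' → NoS B') {B1 B2 : Matrix (Fin n) (Fin n) ℤ}
    (h1 : Reach B B1) (h2 : Reach B B2) (hc1 : ¬ Cyc B1) (hc2 : ¬ Cyc B2) : SS B1 B2 := by
  have hsk : Skew B1 := by
    obtain ⟨s, rfl⟩ := h1
    clear hc1 h2
    induction s using List.reverseRecOn with
    | nil => exact h
    | append_singleton s k ih =>
      rw [List.foldl_append, List.foldl_cons, List.foldl_nil]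
      exact mu_skew ih k
  rcases (acyclic_class hsk (hab B1 h1) hc1 (h1.symm'.trans' h2)).2 with h3 | h3
  · exact h3
  · exact (hc2 h3.cyc).elim

theorem acyclic_finite (h : Skew B) (hab : ∀ B', Reach B B' → NoS B') : {B' | Reach B B' ∧ ¬ Cyc B'}.Finite := by
  by_cases hex : ∃ B1, Reach B B1 ∧ ¬ Cyc B1
  · obtain ⟨B1, h1, hc1⟩ := hex
    have hsk : Skew B1 := by
      obtain ⟨s, rfl⟩ := h1
      clear hc1
      induction s using List.reverseRecOn with
      | nil => exact h
      | append_singleton s k ih =>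
        rw [List.foldl_append, List.foldl_cons, List.foldl_nil]
        exact mu_skew ih k
    exact (SS.finite hsk).subset fun B2 hB2 => acyclic_members h hab h1 hB2.1 hc1 hB2.2
  · have : {B' | Reach B B' ∧ ¬ Cyc B'} = ∅ := by
      ext B'
      simp only [Set.mem_empty_iff_false, iff_false]
      exact fun hB' => hex ⟨B', hB'⟩
    rw [this]
    exact Set.finite_empty

/-- Divisibility of all entries by `d` is preserved by mutations. -/
theorem dvd_class {d : ℤ} (hd : ∀ i j, d ∣ B i j) {B' : Matrix (Fin n) (Fin n) ℤ} (hr : Reach B B') :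
    ∀ i j, d ∣ B' i j := by
  obtain ⟨s, rfl⟩ := hr
  induction s using List.reverseRecOn with
  | nil => exact hd
  | append_singleton s k ih =>
    rw [List.foldl_append, List.foldl_cons, List.foldl_nil]
    intro i j
    by_cases hi : i = k
    · rw [hi, mu_left]
      exact (ih k j).neg_right
    by_cases hj : j = k
    · rw [hj, mu_right]
      exact (ih i k).neg_right
    rw [mu_of_ne _ hi hj]
    refine dvd_sub (dvd_add (ih i j) (Dvd.dvd.mul_right ?_ _)) (Dvd.dvd.mul_right ?_ _)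
    · rcases max_choice (s.foldl mu B i k) 0 with h | h <;> rw [h]
      · exact ih i k
      · exact dvd_zero d
    · rcases max_choice (-(s.foldl mu B i k)) 0 with h | h <;> rw [h]
      · exact (ih i k).neg_right
      · exact dvd_zero d

theorem noS_of_dvd {d : ℤ} (hd2 : 2 ≤ d) (hd : ∀ i j, d ∣ B i j) : NoS B := by
  intro i j hij
  have h1 : d ≤ |B i j| := Int.le_of_dvd (abs_pos.2 hij) ((dvd_abs _ _).2 (hd i j))
  omega

end Pool.Agent.Lib.MP_153a79_co.MG
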