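import Pool.Agent.Lib.MP_153a79_co.MG.A1

/-!
# Acyclic quivers have a maximal green sequence

Mutate every vertex once, the sources first.
-/

set_option autoImplicit false

namespace Pool.Agent.Lib.MP_153a79_co.MG

variable {n : ℕ} {B : Matrix (Fin n) (Fin n) ℤ}

/-- the sign of a vertex: `-1` after its mutation -/
def sg (T : Finset (Fin n)) (i : Fin n) : ℤ := if i ∈ T then -1 else 1

/-- the extended matrix after the mutations at the vertices of `T` -/
def MT (B : Matrix (Fin n) (Fin n) ℤ) (T : Finset (Fin n)) : Matrix (Fin n ⊕ Fin n) (Fin n) ℤ :=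
  Matrix.of fun i j => Sum.elim (fun i' => sg T i' * sg T j * B i' j) (fun i' => if i' = j then sg T j else 0) i

theorem MT_inl (T : Finset (Fin n)) (i j : Fin n) : MT B T (Sum.inl i) j = sg T i * sg T j * B i j := rfl

theorem MT_inr (T : Finset (Fin n)) (i j : Fin n) : MT B T (Sum.inr i) j = if i = j then sg T j else 0 := rfl

theorem MT_step (h : Skew B) {T : Finset (Fin n)} {k : Fin n} (hT : ∀ x ∈ T, ∀ y, 0 < B x y → y ∈ T)
    (hk : k ∉ T) (hs : ∀ y, y ∉ T → B k y ≤ 0) : muF (MT B T) k = MT B (insert k T) := by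
  have hsk : sg T k = 1 := if_neg hk
  have hrow : ∀ j, MT B T (Sum.inl k) j ≤ 0 := by
    intro j
    rw [MT_inl, hsk]
    unfold sg
    split_ifs with hj
    · have h1 : ¬ B k j < 0 := by
        intro hc
        exact hk (hT j hj k (by rw [h j k]; omega))
      omega
    · have := hs j hj
      omega
  have hcol : ∀ i, 0 ≤ MT B T i k := by
    rintro (i | i)
    · have h1 := hrow i
      rw [MT_inl] at h1 ⊢
      rw [h i k]
      have h2 : sg T i * sg T k * -B k i = -(sg T k * sg T i * B k i) := by ring
      rw [h2]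
      omega
    · rw [MT_inr]
      split_ifs with hi
      · rw [hsk]; omega
      · exact le_rfl
  have hsg : ∀ j, j ≠ k → sg (insert k T) j = sg T j := by
    intro j hj
    unfold sg
    simp [Finset.mem_insert, hj]
  have hsgk : sg (insert k T) k = -1 := if_pos (Finset.mem_insert_self k T)
  ext i j
  change (if i = Sum.inl k ∨ j = k then -MT B T i j else MT B T i j +
      max (MT B T i k) 0 * max (MT B T (Sum.inl k) j) 0 - max (-MT B T i k) 0 *
      max (-MT B T (Sum.inl k) j) 0) = MT B (insert k T) i j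
  by_cases hj : j = k
  · subst hj
    rw [if_pos (Or.inr rfl)]
    rcases i with i | i
    · rw [MT_inl, MT_inl, hsgk, hsk]
      by_cases hi : i = j
      · rw [hi, h.diag]
        simp
      · rw [hsg i hi]
        ring
    · rw [MT_inr, MT_inr, hsgk, hsk]
      split_ifs <;> simp
  by_cases hi : i = Sum.inl k
  · subst hi
    rw [if_pos (Or.inl rfl), MT_inl, MT_inl, hsgk, hsk, hsg j hj]
    ring
  rw [if_neg (by rintro (h1 | h1); exacts [hi h1, hj h1]), max_eq_right (hrow j),
    max_eq_right (show -MT B T i k ≤ 0 by have := hcol i; omega), mul_zero, zero_mul, add_zero, sub_zero]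
  rcases i with i | i
  · have hi' : i ≠ k := fun e => hi (by rw [e])
    rw [MT_inl, MT_inl, hsg i hi', hsg j hj]
  · rw [MT_inr, MT_inr, hsg j hj]

theorem mgs_aux (h : Skew B) (hc : ¬ Cyc B) : ∀ (m : ℕ) (T : Finset (Fin n)), (Finset.univ \ T).card = m →
    (∀ x ∈ T, ∀ y, 0 < B x y → y ∈ T) → ∃ t : List (Fin n),
    (∀ l₁ l₂ : List (Fin n), ∀ k : Fin n, t = l₁ ++ k :: l₂ → ∀ i : Fin n,
      0 ≤ (l₁.foldl muF (MT B T)) (Sum.inr i) k) ∧
    ∀ i j : Fin n, (t.foldl muF (MT B T)) (Sum.inr i) j ≤ 0 := by
  intro m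
  induction m with
  | zero =>
    intro T hT _
    refine ⟨[], ?_, ?_⟩
    · intro l₁ l₂ k hk
      simp at hk
    · intro i j
      rw [List.foldl_nil, MT_inr]
      have hj : j ∈ T := by
        by_contra hj
        have h1 : j ∈ Finset.univ \ T := by simp [hj]
        rw [Finset.card_eq_zero.1 hT] at h1
        simp at h1
      unfold sg
      rw [if_pos hj]
      split_ifs <;> omega
  | succ m ih =>
    intro T hT hcl
    -- a source of the complement
    have hne : ∃ x, x ∉ T := by
      have h1 : (Finset.univ \ T).Nonempty := by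
        rw [← Finset.card_pos]; omega
      obtain ⟨x, hx⟩ := h1
      exact ⟨x, by simpa using hx⟩
    have hk : ∃ k, k ∉ T ∧ ∀ y, y ∉ T → B k y ≤ 0 := by
      by_contra hcon
      push Not at hcon
      obtain ⟨x, hx⟩ := hne
      exact hc ⟨{x | x ∉ T}, ⟨x, hx⟩, fun z hz => hcon z hz⟩
    obtain ⟨k, hkT, hks⟩ := hk
    have hstep := MT_step h hcl hkT hks
    obtain ⟨t, ht1, ht2⟩ := ih (insert k T) (by
        have h1 : Finset.univ \ insert k T = (Finset.univ \ T).erase k := by
          ext x
          simp only [Finset.mem_sdiff, Finset.mem_univ, true_and, Finset.mem_insert, Finset.mem_erase]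
          tauto
        rw [h1, Finset.card_erase_of_mem (by simp [hkT]), hT]
        rfl) (by
        intro x hx y hy
        rcases Finset.mem_insert.1 hx with rfl | hx
        · by_contra hyn
          have h2 : y ∉ T := fun hyT => hyn (Finset.mem_insert_of_mem hyT)
          have := hks y h2
          omega
        · exact Finset.mem_insert_of_mem (hcl x hx y hy))
    rw [← hstep] at ht1 ht2
    refine ⟨k :: t, ?_, ?_⟩
    · intro l₁ l₂ k' hk' i
      rcases l₁ with _ | ⟨a, l₁⟩
      · rw [List.nil_append, List.cons.injEq] at hk'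
        rw [List.foldl_nil, ← hk'.1, MT_inr]
        split_ifs with hi
        · unfold sg
          rw [if_neg hkT]
          omega
        · exact le_rfl
      · rw [List.cons_append, List.cons.injEq] at hk'
        rw [List.foldl_cons, ← hk'.1]
        exact ht1 l₁ l₂ k' hk'.2 i
    · intro i j
      rw [List.foldl_cons]
      exact ht2 i j

/-- An acyclic quiver has a maximal green sequence. -/
theorem mgs_of_acyclic (h : Skew B) (hc : ¬ Cyc B) : ∃ t, IsMGS B t := by
  obtain ⟨t, ht1, ht2⟩ := mgs_aux h hc _ ∅ rfl (by simp)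
  have h0 : MT B ∅ = Matrix.fromRows B (1 : Matrix (Fin n) (Fin n) ℤ) := by
    ext i j
    rcases i with i | i
    · rw [MT_inl]
      simp [sg]
    · rw [MT_inr]
      simp [sg, Matrix.one_apply]
  rw [h0] at ht1 ht2
  exact ⟨t, ht1, ht2⟩

end Pool.Agent.Lib.MP_153a79_co.MG
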