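import Pool.Agent.Lib.MP_153a79_co.MG.A3
import Pool.Agent.Lib.MP_153a79_co.MG.F2
import Pool.Agent.Lib.MP_153a79_co.MG.F3

/-!
# Mutation classes without simple arrows
-/

set_option autoImplicit false

namespace Pool.Agent.Lib.MP_153a79_co.MG

variable {n : ℕ} {B : Matrix (Fin n) (Fin n) ℤ}

theorem reach_skew (h : Skew B) {B' : Matrix (Fin n) (Fin n) ℤ} (hr : Reach B B') : Skew B' := by
  obtain ⟨s, rfl⟩ := hr
  induction s using List.reverseRecOn with
  | nil => exact h
  | append_singleton s k ih =>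
    rw [List.foldl_append, List.foldl_cons, List.foldl_nil]
    exact mu_skew ih k

/-- In a class without simple arrows exactly the acyclic members have a maximal green sequence. -/
theorem mgs_iff (h : Skew B) (hab : ∀ B', Reach B B' → NoS B') {B' : Matrix (Fin n) (Fin n) ℤ}
    (hr : Reach B B') : (∃ t, IsMGS B' t) ↔ ¬ Cyc B' := by
  constructor
  · intro ht hc
    exact no_mgs (reach_skew h hr) (fun B'' h2 => hab B'' (hr.trans' h2)) hc ht
  · exact mgs_of_acyclic (reach_skew h hr)

theorem mgs_finite (h : Skew B) (hab : ∀ B', Reach B B' → NoS B') :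
    {B' | Reach B B' ∧ ∃ t, IsMGS B' t}.Finite := by
  refine (acyclic_finite h hab).subset ?_
  rintro B' ⟨h1, h2⟩
  exact ⟨h1, (mgs_iff h hab h1).1 h2⟩

/-- Two members with a maximal green sequence are related by mutations at sinks and sources. -/
theorem mgs_ss (h : Skew B) (hab : ∀ B', Reach B B' → NoS B') {B1 B2 : Matrix (Fin n) (Fin n) ℤ}
    (h1 : Reach B B1) (h2 : Reach B B2) (ht1 : ∃ t, IsMGS B1 t) (ht2 : ∃ t, IsMGS B2 t) : SS B1 B2 :=
  acyclic_members h hab h1 h2 ((mgs_iff h hab h1).1 ht1) ((mgs_iff h hab h2).1 ht2)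

/-- All multiplicities divisible by `d ≥ 2`: no simple arrows in the whole class. -/
theorem noS_dvd {d : ℤ} (hd2 : 2 ≤ d) (hd : ∀ i j, d ∣ B i j) : ∀ B', Reach B B' → NoS B' :=
  fun _ hr => noS_of_dvd hd2 (dvd_class hd hr)

/-- An acyclic quiver without simple arrows: no simple arrows in the whole class. -/
theorem noS_acyclic (h : Skew B) (hn : NoS B) (hc : ¬ Cyc B) : ∀ B', Reach B B' → NoS B' :=
  fun _ hr => (acyclic_class h hn hc hr).1

end Pool.Agent.Lib.MP_153a79_co.MG
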