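import Pool.Agent.Lib.MP_153a79_co.MG.F4

/-!
# At most `n!` acyclic members
-/

set_option autoImplicit false

namespace Pool.Agent.Lib.MP_153a79_co.MG

variable {n : ℕ} {B : Matrix (Fin n) (Fin n) ℤ}

/-- Topological sorting. -/
theorem topo_aux (hc : ¬ Cyc B) : ∀ (m : ℕ) (T : Finset (Fin n)), T.card = m →
    ∃ f : Fin n → ℕ, (∀ x ∈ T, f x < m) ∧ (∀ x ∈ T, ∀ y ∈ T, f x = f y → x = y) ∧
      ∀ x ∈ T, ∀ y ∈ T, 0 < B x y → f y < f x := by
  intro m
  induction m with
  | zero =>
    intro T hT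
    rw [Finset.card_eq_zero] at hT
    subst hT
    exact ⟨fun _ => 0, by simp, by simp, by simp⟩
  | succ m ih =>
    intro T hT
    have hne : T.Nonempty := by
      rw [← Finset.card_pos]
      omega
    obtain ⟨x0, hx0, hmin⟩ : ∃ x ∈ T, ∀ y ∈ T, B x y ≤ 0 := by
      by_contra hcon
      push Not at hcon
      exact hc ⟨(T : Set (Fin n)), hne, fun x hx => by
        obtain ⟨y, hy, h⟩ := hcon x hx
        exact ⟨y, hy, h⟩⟩
    obtain ⟨f, h1, h2, h3⟩ := ih (T.erase x0) (by rw [Finset.card_erase_of_mem hx0, hT]; rfl)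
    refine ⟨fun x => if x = x0 then 0 else f x + 1, ?_, ?_, ?_⟩
    · intro x hx
      by_cases hxx : x = x0
      · simp only [if_pos hxx]
        omega
      · simp only [if_neg hxx]
        have := h1 x (Finset.mem_erase.2 ⟨hxx, hx⟩)
        omega
    · intro x hx y hy hxy
      by_cases hxx : x = x0
      · by_cases hyy : y = x0
        · rw [hxx, hyy]
        · simp only [if_pos hxx, if_neg hyy] at hxy
          omega
      · by_cases hyy : y = x0
        · simp only [if_neg hxx, if_pos hyy] at hxy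
          omega
        · simp only [if_neg hxx, if_neg hyy] at hxy
          exact h2 x (Finset.mem_erase.2 ⟨hxx, hx⟩) y (Finset.mem_erase.2 ⟨hyy, hy⟩) (by omega)
    · intro x hx y hy hxy
      by_cases hxx : x = x0
      · rw [hxx] at hxy
        have := hmin y hy
        omega
      · by_cases hyy : y = x0
        · simp only [if_neg hxx, if_pos hyy]
          omega
        · simp only [if_neg hxx, if_neg hyy]
          have := h3 x (Finset.mem_erase.2 ⟨hxx, hx⟩) y (Finset.mem_erase.2 ⟨hyy, hy⟩) hxy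
          omega

theorem topo (hc : ¬ Cyc B) : ∃ σ : Equiv.Perm (Fin n), ∀ x y, 0 < B x y → σ y < σ x := by
  obtain ⟨f, h1, h2, h3⟩ := topo_aux hc n Finset.univ (by simp)
  have hinj : Function.Injective (fun x : Fin n => (⟨f x, h1 x (Finset.mem_univ _)⟩ : Fin n)) := by
    intro x y hxy
    exact h2 x (Finset.mem_univ _) y (Finset.mem_univ _) (Fin.mk.inj_iff.1 hxy)
  refine ⟨Equiv.ofBijective _ (Finite.injective_iff_bijective.1 hinj), fun x y hxy => ?_⟩
  exact Fin.mk_lt_mk.2 (h3 x (Finset.mem_univ _) y (Finset.mem_univ _) hxy)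

/-- The acyclic orientation of `|B|` given by `σ`. -/
def ori (B : Matrix (Fin n) (Fin n) ℤ) (σ : Equiv.Perm (Fin n)) : Matrix (Fin n) (Fin n) ℤ :=
  Matrix.of (fun i j => if σ i < σ j then -|B i j| else |B i j|)

/-- At most `n!` quivers with prescribed multiplicities are acyclic. -/
theorem ori_count (B : Matrix (Fin n) (Fin n) ℤ) (S : Set (Matrix (Fin n) (Fin n) ℤ))
    (hS : ∀ B' ∈ S, Skew B' ∧ ¬ Cyc B' ∧ ∀ i j, |B' i j| = |B i j|) : S.ncard ≤ n.factorial := by
  classical
  have hsub : S ⊆ Set.range (ori B) := by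
    intro B' hB'
    obtain ⟨hs, hc, ha⟩ := hS B' hB'
    obtain ⟨σ, hσ⟩ := topo hc
    refine ⟨σ, ?_⟩
    ext i j
    change (if σ i < σ j then -|B i j| else |B i j|) = B' i j
    rw [← ha i j]
    rcases lt_trichotomy (B' i j) 0 with h1 | h1 | h1
    · have h2 : 0 < B' j i := by
        have := hs j i
        omega
      rw [if_pos (hσ j i h2), abs_of_neg h1, neg_neg]
    · rw [h1]
      simp
    · rw [if_neg (not_lt.2 (hσ i j h1).le), abs_of_pos h1]
  have hfin : (Set.range (ori B)).Finite := Set.finite_range _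
  refine (Set.ncard_le_ncard hsub hfin).trans ?_
  rw [← Set.image_univ]
  refine (Set.ncard_image_le Set.finite_univ).trans ?_
  rw [Set.ncard_univ, Nat.card_eq_fintype_card, Fintype.card_perm, Fintype.card_fin]

theorem mgs_factorial (h : Skew B) (hab : ∀ B', Reach B B' → NoS B') :
    {B' | Reach B B' ∧ ∃ t, IsMGS B' t}.ncard ≤ n.factorial := by
  by_cases hex : ∃ B1, Reach B B1 ∧ ∃ t, IsMGS B1 t
  · obtain ⟨B1, h1, ht1⟩ := hex
    refine ori_count B1 _ fun B' hB' => ?_
    have hss := mgs_ss h hab h1 hB'.1 ht1 hB'.2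
    obtain ⟨h2, h3⟩ := SS.abs (reach_skew h h1) hss
    exact ⟨h2, (mgs_iff h hab hB'.1).1 hB'.2, h3⟩
  · have he : {B' | Reach B B' ∧ ∃ t, IsMGS B' t} = ∅ := by
      ext B'
      simp only [Set.mem_empty_iff_false, iff_false]
      exact fun hB' => hex ⟨B', hB'⟩
    rw [he, Set.ncard_empty]
    exact Nat.zero_le _

end Pool.Agent.Lib.MP_153a79_co.MG
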