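import Pool.Agent.Lib.MP_153a79_co.MG.F4

/-!
# Classes without simple arrows are infinite
-/

set_option autoImplicit false

namespace Pool.Agent.Lib.MP_153a79_co.MG

variable {n : ℕ} {B : Matrix (Fin n) (Fin n) ℤ}

/-- The sum of the multiplicities of a triangle. -/
def Sm (B : Matrix (Fin n) (Fin n) ℤ) (p q r : Fin n) : ℤ := |B p q| + |B q r| + |B r p|

/-- A connected triple of vertices with multiplicities other than `2, 2, 2`. -/
def PP (B : Matrix (Fin n) (Fin n) ℤ) (p q r : Fin n) : Prop :=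
  ((B p q ≠ 0 ∧ B q r ≠ 0) ∨ (B q r ≠ 0 ∧ B r p ≠ 0) ∨ (B r p ≠ 0 ∧ B p q ≠ 0)) ∧
    ¬ (|B p q| = 2 ∧ |B q r| = 2 ∧ |B r p| = 2)

theorem Sm_rot (B : Matrix (Fin n) (Fin n) ℤ) (p q r : Fin n) : Sm B q r p = Sm B p q r := by
  unfold Sm
  ring

theorem PP.rot {p q r : Fin n} (h : PP B p q r) : PP B q r p := by
  obtain ⟨h1, h2⟩ := h
  refine ⟨?_, fun h3 => h2 ⟨h3.2.2, h3.1, h3.2.1⟩⟩
  rcases h1 with h1 | h1 | h1
  · exact Or.inr (Or.inr h1)
  · exact Or.inl h1
  · exact Or.inr (Or.inl h1)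

/-- The third entry after the mutation at the middle vertex. -/
theorem tri_mu (h : Skew B) {p q r : Fin n} (hs : 0 < B p q * B q r) :
    (0 < B p q ∧ 0 < B q r ∧ mu B q r p = B r p - B p q * B q r) ∨
    (B p q < 0 ∧ B q r < 0 ∧ mu B q r p = B r p + B p q * B q r) := by
  rcases pos_and_pos_or_neg_and_neg_of_mul_pos hs with ⟨h1, h2⟩ | ⟨h1, h2⟩
  · exact Or.inl ⟨h1, h2, mu_thru' h h2 h1⟩
  · refine Or.inr ⟨h1, h2, ?_⟩
    have h3 := h q p
    have h4 := h r q
    rw [mu_thru h (show 0 < B q p by omega) (show 0 < B r q by omega), h3, h4]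
    ring

theorem up_A (h : Skew B) (hn : NoS B) {p q r : Fin n} (hs : 0 < B p q * B q r)
    (hc : B r p * B p q ≤ 0) : PP (mu B q) p q r ∧ Sm B p q r < Sm (mu B q) p q r := by
  have hp : B p q ≠ 0 := by
    intro h0
    rw [h0, zero_mul] at hs
    exact lt_irrefl _ hs
  have hr : B q r ≠ 0 := by
    intro h0
    rw [h0, mul_zero] at hs
    exact lt_irrefl _ hs
  have h2 := hn p q hp
  have h3 := hn q r hr
  have e1 : mu B q p q = -B p q := mu_right B q p
  have e2 : mu B q q r = -B q r := mu_left B q r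
  have e3 : |mu B q r p| = |B r p| + |B p q| * |B q r| := by
    rcases tri_mu h hs with ⟨g1, g2, g3⟩ | ⟨g1, g2, g3⟩
    · have g4 : B r p ≤ 0 := by
        by_contra hcon
        have := mul_pos (not_le.1 hcon) g1
        omega
      rw [g3, abs_of_nonpos g4, abs_of_pos g1, abs_of_pos g2, abs_of_nonpos (by nlinarith)]
      ring
    · have g4 : 0 ≤ B r p := by
        by_contra hcon
        have := mul_pos_of_neg_of_neg (not_le.1 hcon) g1
        omega
      rw [g3, abs_of_nonneg g4, abs_of_neg g1, abs_of_neg g2, abs_of_nonneg (by nlinarith)]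
      ring
  have h4 : 4 ≤ |B p q| * |B q r| := by nlinarith
  have h5 := abs_nonneg (B r p)
  refine ⟨⟨Or.inl ⟨?_, ?_⟩, fun h6 => ?_⟩, ?_⟩
  · rw [e1]
    exact neg_ne_zero.2 hp
  · rw [e2]
    exact neg_ne_zero.2 hr
  · have := h6.2.2
    omega
  · unfold Sm
    rw [e1, e2, abs_neg, abs_neg, e3]
    omega

theorem up_B (h : Skew B) (hn : NoS B) {p q r : Fin n} (hs : 0 < B p q * B q r)
    (hc : 0 < B q r * B r p) (h1 : |B r p| ≤ |B p q|) (h1' : |B r p| ≤ |B q r|)
    (h2' : ¬ (|B p q| = 2 ∧ |B q r| = 2 ∧ |B r p| = 2)) :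
    PP (mu B q) p q r ∧ Sm B p q r < Sm (mu B q) p q r := by
  have hp : B p q ≠ 0 := by
    intro h0
    rw [h0, zero_mul] at hs
    exact lt_irrefl _ hs
  have hr : B q r ≠ 0 := by
    intro h0
    rw [h0, mul_zero] at hs
    exact lt_irrefl _ hs
  have hz : B r p ≠ 0 := by
    intro h0
    rw [h0, mul_zero] at hc
    exact lt_irrefl _ hc
  have h2 := hn p q hp
  have h3 := hn q r hr
  have h4 := hn r p hz
  have key : ∀ x y z : ℤ, 2 ≤ x → 2 ≤ y → 2 ≤ z → z ≤ x → z ≤ y → ¬ (x = 2 ∧ y = 2 ∧ z = 2) →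
      2 * z < x * y := by
    intro x y z hx hy hz' hzx hzy hne
    by_cases hx3 : 3 ≤ x
    · nlinarith
    · have hx2 : x = 2 := by omega
      subst hx2
      by_contra hcon
      apply hne
      omega
  have h5 := key _ _ _ h2 h3 h4 h1 h1' h2'
  have e1 : mu B q p q = -B p q := mu_right B q p
  have e2 : mu B q q r = -B q r := mu_left B q r
  have e3 : |mu B q r p| = |B p q| * |B q r| - |B r p| := by
    rcases tri_mu h hs with ⟨g1, g2, g3⟩ | ⟨g1, g2, g3⟩
    · have g4 : 0 < B r p := by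
        by_contra hcon
        have := mul_nonpos_of_nonneg_of_nonpos g2.le (not_lt.1 hcon)
        omega
      rw [abs_of_pos g1, abs_of_pos g2, abs_of_pos g4] at h5
      rw [g3, abs_of_pos g4, abs_of_pos g1, abs_of_pos g2, abs_of_nonpos (by omega)]
      ring
    · have g4 : B r p < 0 := by
        by_contra hcon
        have := mul_nonpos_of_nonpos_of_nonneg g2.le (not_lt.1 hcon)
        omega
      rw [abs_of_neg g1, abs_of_neg g2, abs_of_neg g4, neg_mul_neg] at h5
      rw [g3, abs_of_neg g4, abs_of_neg g1, abs_of_neg g2, abs_of_nonneg (by omega)]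
      ring
  refine ⟨⟨Or.inl ⟨?_, ?_⟩, fun h6 => ?_⟩, ?_⟩
  · rw [e1]
    exact neg_ne_zero.2 hp
  · rw [e2]
    exact neg_ne_zero.2 hr
  · have := h6.2.2
    omega
  · unfold Sm
    rw [e1, e2, abs_neg, abs_neg, e3]
    omega

/-- `r` and `p` are not adjacent. -/
theorem up_C (h : Skew B) (hn : ∀ B', Reach B B' → NoS B') {p q r : Fin n} (hpq : p ≠ q) (hpr : p ≠ r)
    (hs : B p q * B q r < 0) (hc : B r p = 0) :
    PP (mu (mu B p) q) p q r ∧ Sm B p q r < Sm (mu (mu B p) q) p q r := by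
  have e1 : mu B p p q = -B p q := mu_left B p q
  have e2 : mu B p r p = 0 := by rw [mu_right, hc, neg_zero]
  have e3 : mu B p q r = B q r := by
    have h1 : B p r = 0 := by rw [h p r, hc, neg_zero]
    rw [mu_of_ne B hpq.symm hpr.symm, h1]
    simp
  have h1 := up_A (mu_skew h p) (hn _ ⟨[p], rfl⟩) (p := p) (q := q) (r := r)
    (by rw [e1, e3]; linarith) (by rw [e2, zero_mul])
  refine ⟨h1.1, ?_⟩
  have h2 : Sm (mu B p) p q r = Sm B p q r := by
    unfold Sm
    rw [e1, e2, e3, abs_neg, hc]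
  rw [← h2]
  exact h1.2

theorem up_step (h : Skew B) (hn : ∀ B', Reach B B' → NoS B') {p q r : Fin n} (hpq : p ≠ q) (hqr : q ≠ r)
    (hrp : r ≠ p) (hP : PP B p q r) : ∃ B', Reach B B' ∧ PP B' p q r ∧ Sm B p q r < Sm B' p q r := by
  have hn0 : NoS B := hn B ⟨[], rfl⟩
  -- the conclusion is invariant under rotation
  have rot1 : ∀ B', PP B' q r p ∧ Sm B q r p < Sm B' q r p → PP B' p q r ∧ Sm B p q r < Sm B' p q r := by
    rintro B' ⟨h1, h2⟩
    rw [Sm_rot B p q r, Sm_rot B' p q r] at h2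
    exact ⟨h1.rot.rot, h2⟩
  have rot2 : ∀ B', PP B' r p q ∧ Sm B r p q < Sm B' r p q → PP B' p q r ∧ Sm B p q r < Sm B' p q r := by
    rintro B' ⟨h1, h2⟩
    rw [Sm_rot B q r p, Sm_rot B p q r, Sm_rot B' q r p, Sm_rot B' p q r] at h2
    exact ⟨h1.rot, h2⟩
  have R1 : ∀ k, Reach B (mu B k) := fun k => ⟨[k], rfl⟩
  have R2 : ∀ k l, Reach B (mu (mu B k) l) := fun k l => ⟨[k, l], rfl⟩
  by_cases hab : 0 < B p q * B q r
  · by_cases hbc : 0 < B q r * B r p
    · have hca : 0 < B r p * B p q := by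
        rcases pos_and_pos_or_neg_and_neg_of_mul_pos hab with ⟨g1, g2⟩ | ⟨g1, g2⟩
        · have g3 : 0 < B r p := by
            by_contra hcon
            have := mul_nonpos_of_nonneg_of_nonpos g2.le (not_lt.1 hcon)
            omega
          exact mul_pos g3 g1
        · have g3 : B r p < 0 := by
            by_contra hcon
            have := mul_nonpos_of_nonpos_of_nonneg g2.le (not_lt.1 hcon)
            omega
          exact mul_pos_of_neg_of_neg g3 g1
      have hne := hP.2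
      by_cases m1 : |B r p| ≤ |B p q| ∧ |B r p| ≤ |B q r|
      · exact ⟨_, R1 q, up_B h hn0 hab hbc m1.1 m1.2 hne⟩
      · by_cases m2 : |B p q| ≤ |B q r| ∧ |B p q| ≤ |B r p|
        · exact ⟨_, R1 r, rot1 _ (up_B h hn0 hbc hca m2.1 m2.2
            (fun h3 => hne ⟨h3.2.2, h3.1, h3.2.1⟩))⟩
        · have m3 : |B q r| ≤ |B r p| ∧ |B q r| ≤ |B p q| := by omega
          exact ⟨_, R1 p, rot2 _ (up_B h hn0 hca hab m3.1 m3.2
            (fun h3 => hne ⟨h3.2.1, h3.2.2, h3.1⟩))⟩
    · have hca : B r p * B p q ≤ 0 := by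
        rcases pos_and_pos_or_neg_and_neg_of_mul_pos hab with ⟨g1, g2⟩ | ⟨g1, g2⟩
        · have g3 : B r p ≤ 0 := by
            by_contra hcon
            exact hbc (mul_pos g2 (not_le.1 hcon))
          exact mul_nonpos_of_nonpos_of_nonneg g3 g1.le
        · have g3 : 0 ≤ B r p := by
            by_contra hcon
            exact hbc (mul_pos_of_neg_of_neg g2 (not_le.1 hcon))
          exact mul_nonpos_of_nonneg_of_nonpos g3 g1.le
      exact ⟨_, R1 q, up_A h hn0 hab hca⟩
  · by_cases hbc : 0 < B q r * B r p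
    · exact ⟨_, R1 r, rot1 _ (up_A h hn0 hbc (not_lt.1 hab))⟩
    · by_cases hca : 0 < B r p * B p q
      · exact ⟨_, R1 p, rot2 _ (up_A h hn0 hca (not_lt.1 hbc))⟩
      · have hz : B p q = 0 ∨ B q r = 0 ∨ B r p = 0 := by
          by_contra hcon
          push Not at hcon
          obtain ⟨z1, z2, z3⟩ := hcon
          have s1 : B p q * B q r < 0 := lt_of_le_of_ne (not_lt.1 hab) (mul_ne_zero z1 z2)
          have s2 : B q r * B r p < 0 := lt_of_le_of_ne (not_lt.1 hbc) (mul_ne_zero z2 z3)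
          have s3 : B r p * B p q < 0 := lt_of_le_of_ne (not_lt.1 hca) (mul_ne_zero z3 z1)
          have s4 := mul_neg_of_pos_of_neg (mul_pos_of_neg_of_neg s1 s2) s3
          have s5 : B p q * B q r * (B q r * B r p) * (B r p * B p q) = (B p q * B q r * B r p) ^ 2 := by ring
          rw [s5] at s4
          exact absurd (sq_nonneg (B p q * B q r * B r p)) (not_le.2 s4)
        rcases hz with hz | hz | hz
        · -- `B p q = 0`
          have h1 : B q r ≠ 0 ∧ B r p ≠ 0 := by
            rcases hP.1 with g | g | g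
            · exact (g.1 hz).elim
            · exact g
            · exact (g.2 hz).elim
          exact ⟨_, R2 q r, rot1 _ (up_C h hn hqr hpq.symm
            (lt_of_le_of_ne (not_lt.1 hbc) (mul_ne_zero h1.1 h1.2)) hz)⟩
        · have h1 : B r p ≠ 0 ∧ B p q ≠ 0 := by
            rcases hP.1 with g | g | g
            · exact (g.2 hz).elim
            · exact (g.1 hz).elim
            · exact g
          exact ⟨_, R2 r p, rot2 _ (up_C h hn hrp hqr.symm
            (lt_of_le_of_ne (not_lt.1 hca) (mul_ne_zero h1.1 h1.2)) hz)⟩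
        · have h1 : B p q ≠ 0 ∧ B q r ≠ 0 := by
            rcases hP.1 with g | g | g
            · exact g
            · exact (g.2 hz).elim
            · exact (g.1 hz).elim
          exact ⟨_, R2 p q, up_C h hn hpq hrp.symm
            (lt_of_le_of_ne (not_lt.1 hab) (mul_ne_zero h1.1 h1.2)) hz⟩

/-- A class without simple arrows is infinite if a quiver in it has a connected triple of vertices with
multiplicities other than `2, 2, 2`. -/
theorem noS_infinite (h : Skew B) (hn : ∀ B', Reach B B' → NoS B') {p q r : Fin n} (hpq : p ≠ q)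
    (hqr : q ≠ r) (hrp : r ≠ p) (hP : PP B p q r) : {B' | Reach B B'}.Infinite := by
  have key : ∀ m : ℕ, ∃ B', Reach B B' ∧ PP B' p q r ∧ (m : ℤ) ≤ Sm B' p q r := by
    intro m
    induction m with
    | zero =>
      refine ⟨B, ⟨[], rfl⟩, hP, ?_⟩
      unfold Sm
      positivity
    | succ m ih =>
      obtain ⟨B', h1, h2, h3⟩ := ih
      obtain ⟨B'', g1, g2, g3⟩ := up_step (reach_skew h h1) (fun B3 h4 => hn B3 (h1.trans' h4)) hpq hqr hrp h2
      refine ⟨B'', h1.trans' g1, g2, ?_⟩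
      push_cast
      omega
  intro hfin
  obtain ⟨M, hM⟩ := (hfin.image (fun B' => Sm B' p q r)).bddAbove
  obtain ⟨B', h1, _, h3⟩ := key (M.toNat + 1)
  have h4 : Sm B' p q r ≤ M := hM ⟨B', h1, rfl⟩
  push_cast at h3
  omega

end Pool.Agent.Lib.MP_153a79_co.MG
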