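import Pool.Agent.Lib.MP_153a79_co.MG.F4

/-!
# Divisibility patterns
-/

set_option autoImplicit false

namespace Pool.Agent.Lib.MP_153a79_co.MG

variable {n : ℕ} {B : Matrix (Fin n) (Fin n) ℤ}

/-- The integers `D i j` divide the entries, are different from `1`, and `D i j ∣ D i l * D l j`. -/
def Pat (B : Matrix (Fin n) (Fin n) ℤ) (D : Fin n → Fin n → ℕ) : Prop :=
  ∀ i j, i ≠ j → (D i j : ℤ) ∣ B i j ∧ D i j ≠ 1 ∧ ∀ l, l ≠ i → l ≠ j → D i j ∣ D i l * D l j

theorem Pat.step {D : Fin n → Fin n → ℕ} (hP : Pat B D) (k : Fin n) : Pat (mu B k) D := by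
  intro i j hij
  obtain ⟨h1, h2, h3⟩ := hP i j hij
  refine ⟨?_, h2, h3⟩
  by_cases hi : i = k
  · rw [hi, mu_left]
    rw [hi] at h1
    exact h1.neg_right
  by_cases hj : j = k
  · rw [hj, mu_right]
    rw [hj] at h1
    exact h1.neg_right
  rw [mu_of_ne _ hi hj]
  have g1 : (D i k : ℤ) ∣ B i k := (hP i k hi).1
  have g2 : (D k j : ℤ) ∣ B k j := (hP k j (fun h => hj h.symm)).1
  have g3 : (D i j : ℤ) ∣ (D i k : ℤ) * (D k j : ℤ) := by
    exact_mod_cast h3 k (fun h => hi h.symm) (fun h => hj h.symm)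
  have m1 : ∀ x : ℤ, (D i k : ℤ) ∣ x → (D i k : ℤ) ∣ max x 0 := by
    intro x hx
    rcases max_choice x 0 with h | h <;> rw [h]
    · exact hx
    · exact dvd_zero _
  have m2 : ∀ x : ℤ, (D k j : ℤ) ∣ x → (D k j : ℤ) ∣ max x 0 := by
    intro x hx
    rcases max_choice x 0 with h | h <;> rw [h]
    · exact hx
    · exact dvd_zero _
  exact dvd_sub (dvd_add h1 (g3.trans (mul_dvd_mul (m1 _ g1) (m2 _ g2))))
    (g3.trans (mul_dvd_mul (m1 _ g1.neg_right) (m2 _ g2.neg_right)))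

theorem Pat.reach {D : Fin n → Fin n → ℕ} (hP : Pat B D) {B' : Matrix (Fin n) (Fin n) ℤ} (hr : Reach B B') :
    Pat B' D := by
  obtain ⟨s, rfl⟩ := hr
  induction s using List.reverseRecOn with
  | nil => exact hP
  | append_singleton s k ih =>
    rw [List.foldl_append, List.foldl_cons, List.foldl_nil]
    exact ih.step k

theorem Pat.noS {D : Fin n → Fin n → ℕ} (h : Skew B) (hP : Pat B D) : NoS B := by
  intro i j hij
  have hne : i ≠ j := by
    rintro rfl
    exact hij (h.diag i)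
  obtain ⟨h1, h2, _⟩ := hP i j hne
  have h3 : (D i j : ℤ) ≤ |B i j| := Int.le_of_dvd (abs_pos.2 hij) ((dvd_abs _ _).2 h1)
  have h4 : D i j ≠ 0 := by
    intro h0
    rw [h0, Nat.cast_zero, zero_dvd_iff] at h1
    exact hij h1
  have h5 : 2 ≤ D i j := by omega
  have h6 : (2 : ℤ) ≤ D i j := by exact_mod_cast h5
  omega

/-- No simple arrows in the whole class. -/
theorem noS_pat (h : Skew B) {D : Fin n → Fin n → ℕ} (hP : Pat B D) : ∀ B', Reach B B' → NoS B' :=
  fun _ hr => (hP.reach hr).noS (reach_skew h hr)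

end Pool.Agent.Lib.MP_153a79_co.MG
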