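import Pool.Agent.Lib.MP_153a79_co.MG.A3
import Pool.Agent.Lib.MP_153a79_co.MG.A5
import Pool.Agent.Lib.MP_153a79_co.MG.A6
import Pool.Agent.Lib.MP_153a79_co.MG.D1

/-!
# Assembly
-/

set_option autoImplicit false

namespace Pool.Agent.Lib.MP_153a79_co.MG

variable {n : ℕ} {B : Matrix (Fin n) (Fin n) ℤ}

theorem skew_of (h : B.transpose = -B) : Skew B := by
  intro i j
  have h1 := congrFun (congrFun h j) i
  exact h1

theorem Reach.trans {B B' B'' : Matrix (Fin n) (Fin n) ℤ} (h : Reach B B') (h' : Reach B' B'') : Reach B B'' := by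
  obtain ⟨s, rfl⟩ := h
  obtain ⟨t, rfl⟩ := h'
  exact ⟨s ++ t, (List.foldl_append ..).symm⟩

theorem Reach.symm {B B' : Matrix (Fin n) (Fin n) ℤ} (h : Reach B B') : Reach B' B := by
  have key : ∀ (s : List (Fin n)) (B : Matrix (Fin n) (Fin n) ℤ), Reach (s.foldl mu B) B := by
    intro s
    induction s with
    | nil => intro B; exact ⟨[], rfl⟩
    | cons k s ih =>
      intro B
      have h1 : Reach (s.foldl mu (mu B k)) (mu B k) := ih (mu B k)
      have h2 : Reach (mu B k) B := ⟨[k], (mu_mu B k).symm⟩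
      exact h1.trans h2
  obtain ⟨s, rfl⟩ := h
  exact key s B

theorem Reach.skew (hB : Skew B) {B' : Matrix (Fin n) (Fin n) ℤ} (h : Reach B B') : Skew B' := by
  obtain ⟨w, hw⟩ := reach_RW h
  exact hw.skew hB

theorem expanding_of (ha : Ab B) (hT : ¬ Tri B) : Expanding B :=
  ⟨ha, fun i j k h1 h2 h3 => (hT ⟨i, j, k, h1, h2, h3⟩).elim⟩

/-- Members with a maximal green sequence of a class of abundant quivers have no oriented triangle. -/
theorem mgs_acyclic (h : Skew B) (hab : ∀ B', Reach B B' → Ab B') {B' : Matrix (Fin n) (Fin n) ℤ}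
    (hr : Reach B B') (ht : ∃ t, IsMGS B' t) : ¬ Tri B' := by
  intro hT
  have hs : Skew B' := hr.skew h
  exact no_mgs hs (fun B'' h'' => Ab.noS ((hr.trans h'').skew h) (hab _ (hr.trans h''))) hT.cyc ht

/-- At most `n` members of a class of abundant quivers have a maximal green sequence. -/
theorem mgs_count (h : Skew B) (hab : ∀ B', Reach B B' → Ab B') :
    {B' | Reach B B' ∧ ∃ t, IsMGS B' t}.Finite ∧ {B' | Reach B B' ∧ ∃ t, IsMGS B' t}.ncard ≤ max n 1 := by
  by_cases hn : 0 < n
  · by_cases hA : ∃ A, Reach B A ∧ ¬ Tri A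
    · obtain ⟨A, hA1, hA2⟩ := hA
      have hsA : Skew A := hA1.skew h
      have heA : Expanding A := expanding_of (hab A hA1) hA2
      obtain ⟨c1, c2⟩ := acyc_count hsA heA hn hA2
      have hsub : {B' | Reach B B' ∧ ∃ t, IsMGS B' t} ⊆ {Q | (∃ w, RW A w Q) ∧ ¬ Tri Q} := by
        rintro B' ⟨h1, h2⟩
        exact ⟨reach_RW (hA1.symm.trans h1), mgs_acyclic h hab h1 h2⟩
      exact ⟨c1.subset hsub, le_trans (Set.ncard_le_ncard hsub c1) (le_trans c2 (le_max_left _ _))⟩
    · have he : {B' | Reach B B' ∧ ∃ t, IsMGS B' t} = ∅ := by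
        rw [Set.eq_empty_iff_forall_notMem]
        rintro B' ⟨h1, h2⟩
        exact hA ⟨B', h1, mgs_acyclic h hab h1 h2⟩
      rw [he]
      exact ⟨Set.finite_empty, by simp⟩
  · have hn0 : n = 0 := by omega
    subst hn0
    have hs : {B' : Matrix (Fin 0) (Fin 0) ℤ | Reach B B' ∧ ∃ t, IsMGS B' t} ⊆ {B} := by
      intro B' _
      exact Subsingleton.elim B' B
    exact ⟨(Set.finite_singleton B).subset hs,
      le_trans (Set.ncard_le_ncard hs (Set.finite_singleton B)) (by rw [Set.ncard_singleton]; simp)⟩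

/-- No member of the class of an expanding quiver with an oriented triangle has a maximal green sequence. -/
theorem no_mgs_expanding (h : Skew B) (he : Expanding B) (hT : Tri B) {B' : Matrix (Fin n) (Fin n) ℤ}
    (hr : Reach B B') : ¬ ∃ t, IsMGS B' t := by
  have hT' : Tri B' := by
    obtain ⟨w, hw⟩ := reach_RW hr
    induction hw with
    | nil => exact hT
    | @cons w Q k hw hk ih =>
      obtain ⟨i1, i2, i3, _⟩ := hw.good h he
      obtain ⟨s, hs⟩ := hr
      exact tri_step i1 i2 (i3 k hk) (ih ⟨s ++ [k], by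
        rw [List.foldl_append, ← hs]
        exact (mu_mu Q k).symm⟩)
  intro ht
  exact mgs_acyclic h (expanding_class h he) hr ht hT'

/-- The set of the frozen statement. -/
theorem frozen_set (B : Matrix (Fin n) (Fin n) ℤ) :
    {B' : Matrix (Fin n) (Fin n) ℤ |
        (∃ s : List (Fin n), B' = s.foldl
          (fun (M : Matrix (Fin n) (Fin n) ℤ) (k : Fin n) =>
            Matrix.of (fun i j =>
              if i = k ∨ j = k then -M i j
              else M i j + max (M i k) 0 * max (M k j) 0
                - max (-M i k) 0 * max (-M k j) 0)) B) ∧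
        ∃ t : List (Fin n),
          (∀ l₁ l₂ : List (Fin n), ∀ k : Fin n, t = l₁ ++ k :: l₂ →
            ∀ i : Fin n, 0 ≤ (l₁.foldl
              (fun (M : Matrix (Fin n ⊕ Fin n) (Fin n) ℤ) (k : Fin n) =>
                Matrix.of (fun i j =>
                  if i = Sum.inl k ∨ j = k then -M i j
                  else M i j + max (M i k) 0 * max (M (Sum.inl k) j) 0
                    - max (-M i k) 0 * max (-M (Sum.inl k) j) 0))
              (Matrix.fromRows B' (1 : Matrix (Fin n) (Fin n) ℤ))) (Sum.inr i) k) ∧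
          ∀ i j : Fin n, (t.foldl
              (fun (M : Matrix (Fin n ⊕ Fin n) (Fin n) ℤ) (k : Fin n) =>
                Matrix.of (fun i j =>
                  if i = Sum.inl k ∨ j = k then -M i j
                  else M i j + max (M i k) 0 * max (M (Sum.inl k) j) 0
                    - max (-M i k) 0 * max (-M (Sum.inl k) j) 0))
              (Matrix.fromRows B' (1 : Matrix (Fin n) (Fin n) ℤ))) (Sum.inr i) j ≤ 0} =
      {B' | Reach B B' ∧ ∃ t, IsMGS B' t} := rfl

end Pool.Agent.Lib.MP_153a79_co.MG
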